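import Pool.Agent.H39.S7.Fam

set_option autoImplicit false
set_option maxRecDepth 100000

namespace Pool.Agent.H39.S7

/-! The axiom clauses, computed from their tags. -/

def taut : ℕ := Nat.add (nat_lit 1) (Nat.pow (nat_lit 2) (nat_lit 2048))
def lp (c : ℕ) : ℕ := Nat.shiftLeft (nat_lit 1) c
def ln (c : ℕ) : ℕ := Nat.shiftLeft (nat_lit 1) (Nat.add c (nat_lit 2048))

/-- positive literal `j ≤ value`, dropped for `j > bnd` -/
def pos (base bnd u j : ℕ) : ℕ := bif Nat.ble j bnd then lp (base + 8 * u + j) else 0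
/-- negative literal, dropped for `j = 0` -/
def neg (base u j : ℕ) : ℕ := bif Nat.ble 1 j then (bif Nat.ble j 7 then ln (base + 8 * u + j) else taut) else 0
def pos16 (base bnd u j : ℕ) : ℕ := bif Nat.ble j bnd then lp (base + 16 * u + j) else 0
def neg16 (base u j : ℕ) : ℕ := bif Nat.ble 1 j then (bif Nat.ble j 15 then ln (base + 16 * u + j) else taut) else 0

def pa (u v : ℕ) : ℕ := lp (8 * u + v)
def na (u v : ℕ) : ℕ := ln (8 * u + v)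
def pn (u v : ℕ) : ℕ := lp (64 + 8 * u + v)
def nn (u v : ℕ) : ℕ := ln (64 + 8 * u + v)
def pb (y v : ℕ) : ℕ := lp (768 + 8 * y + v)
def nb (y v : ℕ) : ℕ := ln (768 + 8 * y + v)
def pA (u j : ℕ) : ℕ := pos 128 6 u j
def nA (u j : ℕ) : ℕ := neg 128 u j
def pC (u j : ℕ) : ℕ := pos 192 6 u j
def nC (u j : ℕ) : ℕ := neg 192 u j
def pD (mm u j : ℕ) : ℕ := pos 256 mm u j
def nD (u j : ℕ) : ℕ := neg 256 u j
def pt (mm u j : ℕ) : ℕ := pos 320 mm u j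
def nt (u j : ℕ) : ℕ := neg 320 u j
def pz (mm u j : ℕ) : ℕ := pos 384 mm u j
def nz (u j : ℕ) : ℕ := neg 384 u j
def pB (y j : ℕ) : ℕ := pos 832 7 y j
def nB (y j : ℕ) : ℕ := neg 832 y j
def pTs (T u j : ℕ) : ℕ := pos16 512 T u j
def nTs (u j : ℕ) : ℕ := neg16 512 u j
def pnd (T u j : ℕ) : ℕ := pos16 640 T u j
def nnd (u j : ℕ) : ℕ := neg16 640 u j
def pbs (T v y j : ℕ) : ℕ := pos16 1024 T (8 * v + y) j
def nbs (v y j : ℕ) : ℕ := neg16 1024 (8 * v + y) j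
def pe (u : ℕ) : ℕ := lp (448 + u)
def ne' (u : ℕ) : ℕ := ln (448 + u)
def pf (u : ℕ) : ℕ := lp (456 + u)
def nf (u : ℕ) : ℕ := ln (456 + u)
def pL (i u : ℕ) : ℕ := lp (464 + 8 * i + u)
def nL (i u : ℕ) : ℕ := ln (464 + 8 * i + u)
def pq (y v : ℕ) : ℕ := lp (896 + 8 * y + v)
def nq (y v : ℕ) : ℕ := ln (896 + 8 * y + v)

/-- the key literals -/
def pky (al i u : ℕ) : ℕ := bif Nat.beq i 0 then pa al u else bif Nat.beq i 1 then pa 1 u else na u 0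
def nky (al i u : ℕ) : ℕ := bif Nat.beq i 0 then na al u else bif Nat.beq i 1 then na 1 u else pa u 0

/-- disjunction over the elements of a subset of `0..6` -/
def sub7 (s : ℕ) (f : ℕ → ℕ) : ℕ :=
  (bif Nat.testBit s 0 then f 0 else 0) ||| (bif Nat.testBit s 1 then f 1 else 0) |||
  (bif Nat.testBit s 2 then f 2 else 0) ||| (bif Nat.testBit s 3 then f 3 else 0) |||
  (bif Nat.testBit s 4 then f 4 else 0) ||| (bif Nat.testBit s 5 then f 5 else 0) |||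
  (bif Nat.testBit s 6 then f 6 else 0)
def cnt7 (s : ℕ) : ℕ :=
  (bif Nat.testBit s 0 then 1 else 0) + (bif Nat.testBit s 1 then 1 else 0) + (bif Nat.testBit s 2 then 1 else 0) +
  (bif Nat.testBit s 3 then 1 else 0) + (bif Nat.testBit s 4 then 1 else 0) + (bif Nat.testBit s 5 then 1 else 0) +
  (bif Nat.testBit s 6 then 1 else 0)

/-- guarded clause -/
def gd (b : Bool) (c : ℕ) : ℕ := bif b then c else taut

def l7 (u : ℕ) : Bool := Nat.ble u 6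
def ltb (u v : ℕ) : Bool := Nat.ble (u + 1) v
def neb (u v : ℕ) : Bool := !(Nat.beq u v)

-- group 1
def c0 (u v : ℕ) : ℕ := gd (l7 u && l7 v) (na u v ||| na v u)
def c1 (u s : ℕ) : ℕ := gd (l7 u && ltb s 128) (pA u (cnt7 s) ||| sub7 s (na u))
def c2 (u s : ℕ) : ℕ := gd (l7 u && ltb s 128) (pC u (cnt7 s) ||| sub7 s (nn u))
def c3 (u s : ℕ) : ℕ := gd (l7 u && ltb s 128 && !(Nat.testBit s u)) (nA u (7 - cnt7 s) ||| sub7 s (pa u))
def c4 (u j : ℕ) : ℕ := gd (l7 u && ltb j 7) (nA u (j + 1) ||| pA u j)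
def c5 (u j : ℕ) : ℕ := gd (l7 u && ltb j 7) (nC u (j + 1) ||| pC u j)
def c6 (mm u j : ℕ) : ℕ := gd (l7 u && ltb j 7) (nD u (j + 1) ||| pD mm u j)
def c7 (mm u j : ℕ) : ℕ := gd (l7 u && ltb j 7) (nt u (j + 1) ||| pt mm u j)
def c8 (mm u j : ℕ) : ℕ := gd (l7 u && ltb j 7) (nz u (j + 1) ||| pz mm u j)
def c9 (T u j : ℕ) : ℕ := gd (l7 u && ltb j 15) (nnd u (j + 1) ||| pnd T u j)
-- group 2
def c10 (mm u : ℕ) : ℕ := gd (l7 u) (pD mm u 1)
def c11 (u : ℕ) : ℕ := gd (l7 u) (pA u 1)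
def c12 (mm u i : ℕ) : ℕ := gd (l7 u && ltb i 8) (pA u (i + 1) ||| pD mm u (7 - i))
def c13 (mm u i : ℕ) : ℕ := gd (l7 u && ltb i (mm + 1)) (nD u i ||| nt u (mm + 1 - i))
def c14 (u w v : ℕ) : ℕ := gd (l7 u && l7 v && l7 w && neb u v) (na u w ||| na w v ||| pa u v ||| pn u v)
def c15 (mm u v j : ℕ) : ℕ := gd (l7 u && l7 v && neb u v && ltb j (mm + 1)) (nt v j ||| nD u (mm + 1 - j) ||| pa u v ||| pn u v)
def c16 (u v : ℕ) : ℕ := gd (l7 u && l7 v) (nn u v ||| na u v)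
def c17 (T u i j : ℕ) : ℕ := gd (l7 u && ltb 0 u) (pTs T u (i + j) ||| nTs (u - 1) i ||| nt u j)
def c18 (T j : ℕ) : ℕ := pTs T 0 j ||| nt 0 j
def c19 (mm u i j : ℕ) : ℕ := gd (l7 u && ltb 0 u && ltb i 15 && ltb j 7) (nTs u (i + j + 1) ||| pTs 15 (u - 1) (i + 1) ||| pt mm u (j + 1))
def c20 (mm j : ℕ) : ℕ := gd (ltb j 7) (nTs 0 (j + 1) ||| pt mm 0 (j + 1))
def c21 (T : ℕ) : ℕ := pTs T 6 T
-- group 3
def c22 (T u v i j : ℕ) : ℕ := gd (l7 u && l7 v && neb u v && ltb (j + i) (T + 1)) (nnd u j ||| pa u v ||| pn u v ||| nt u i ||| nt v (T + 1 - (j + i)))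
def c23 (T u v w i i' j : ℕ) : ℕ := gd (l7 u && l7 v && l7 w && neb u v && neb u w && neb v w && ltb (j + i + i') (T + 1))
  (nnd u j ||| pa u v ||| pn u v ||| pa u w ||| pn u w ||| nt u i ||| nt v i' ||| nt w (T + 1 - (j + i + i')))
def c24 (T u j : ℕ) : ℕ := gd (l7 u && ltb j (T + 1)) (nnd u j ||| nt u (T + 1 - j))
def c25 (mm T u d av cc : ℕ) : ℕ := gd (l7 u && ltb d 7) (nD u d ||| pD mm u (d + 1) ||| pA u (av + 1) ||| nC u cc ||| pnd T u (need av cc d))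
def c26 (mm K0 u av : ℕ) : ℕ := gd (l7 u) (nD u mm ||| pA u (av + 1) ||| nC u (av + mm - K0))
def c27 (mm u j : ℕ) : ℕ := gd (l7 u && ltb j (mm + 1)) (nz u j ||| nD u (mm + 1 - j))
def c28 (mm u v j : ℕ) : ℕ := gd (l7 u && l7 v && ltb j (mm + 1)) (nz u j ||| na u v ||| nD v (mm + 1 - j))
def c29 (mm T K0 : ℕ) (V : Bool) (u d zz av : ℕ) : ℕ := gd (V && l7 u && ltb 0 d && ltb d mm)
  (nD u d ||| pD mm u (d + 1) ||| pz mm u (zz + 1) ||| pA u (av + 1) |||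
    nC u (av + 2 * d + zz + min K0 ((mm * K0 + T + mm * (mm - 1) / 2 - 7 * mm) / d) - mm - K0))
-- group 4 (labelling)
def c30 (al u : ℕ) : ℕ := gd (l7 u) (pA u al)
def c31 (al : ℕ) : ℕ := nA 0 (al + 1)
def c32 (mm al u j : ℕ) : ℕ := gd (l7 u && ltb j 8) (pA u (al + 1) ||| nD 0 j ||| pD mm u j)
def c33 (al v : ℕ) : ℕ := gd (l7 v) (bif (Nat.ble 1 v && Nat.ble v al) then pa 0 v else na 0 v)
def c34 (al : ℕ) : ℕ := gd (Nat.beq al 2) (na 2 1)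
/-- `L (i-1) u` false, or nothing if `i = 0` -/
def pre (i u : ℕ) : ℕ := bif Nat.beq i 0 then 0 else nL (i - 1) u
def c35 (al i u : ℕ) : ℕ := gd (ltb i 3 && ltb al u && ltb (u + 1) 7) (pre i u ||| pky al i u ||| nky al i (u + 1))
def c36 (al i u : ℕ) : ℕ := gd (ltb i 3 && ltb u 7) (pre i u ||| pL i u ||| pky al i u ||| pky al i (u + 1))
def c37 (al i u : ℕ) : ℕ := gd (ltb i 3 && ltb u 7) (pre i u ||| pL i u ||| nky al i u ||| nky al i (u + 1))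
def c38 (al u j : ℕ) : ℕ := gd (ltb al u && ltb (u + 1) 7) (nL 2 u ||| nA u j ||| pA (u + 1) j)
def c39 (al u j : ℕ) : ℕ := gd (ltb al u && ltb (u + 1) 7) (nL 2 u ||| pe u ||| nA u j ||| pA (u + 1) (j + 1))
def c40 (mm al u j : ℕ) : ℕ := gd (ltb al u && ltb (u + 1) 7) (ne' u ||| pD mm u j ||| nD (u + 1) j)
def c41 (mm al u j : ℕ) : ℕ := gd (ltb al u && ltb (u + 1) 7) (pf u ||| ne' u ||| nD (u + 1) j ||| pD mm u (j + 1))
def c42 (mm al u j : ℕ) : ℕ := gd (ltb al u && ltb (u + 1) 7) (nf u ||| nt u j ||| pt mm (u + 1) j)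
-- group 5 (the rows of M)
def c43 (mm v s : ℕ) : ℕ := gd (l7 v && ltb s (2 ^ mm)) (pt mm v (cnt7 s) ||| sub7 s (fun y => nb y v))
def c44 (mm v s : ℕ) : ℕ := gd (l7 v && ltb s (2 ^ mm)) (nt v (mm + 1 - cnt7 s) ||| sub7 s (fun y => pb y v))
def c45 (mm y s : ℕ) : ℕ := gd (ltb y mm && ltb s 128) (pB y (cnt7 s) ||| sub7 s (nb y))
def c46 (mm y j : ℕ) : ℕ := gd (ltb y mm && ltb j 7) (nB y (j + 1) ||| pB y j)
def c47 (mm T v y i j : ℕ) : ℕ := gd (l7 v && ltb 0 y && ltb y mm) (pbs T v y (i + j) ||| nbs v (y - 1) i ||| nb y v ||| nB y j)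
def c48 (mm T v y i : ℕ) : ℕ := gd (l7 v && ltb 0 y && ltb y mm) (pbs T v y i ||| nbs v (y - 1) i)
def c49 (T v j : ℕ) : ℕ := gd (l7 v) (pbs T v 0 j ||| nb 0 v ||| nB 0 j)
def c50 (mm T v j : ℕ) : ℕ := gd (l7 v && ltb j (T + 1)) (nnd v j ||| nbs v (mm - 1) (T + 1 - j))
/-- `q y (v-1)` false, or nothing if `v = 0` -/
def preq (y v : ℕ) : ℕ := bif Nat.beq v 0 then 0 else nq y (v - 1)
def c51 (mm y v : ℕ) : ℕ := gd (l7 v && ltb (y + 1) mm) (preq y v ||| pb y v ||| nb (y + 1) v)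
def c52 (mm y v : ℕ) : ℕ := gd (l7 v && ltb (y + 1) mm) (preq y v ||| pq y v ||| nb y v ||| nb (y + 1) v)
def c53 (mm y v : ℕ) : ℕ := gd (l7 v && ltb (y + 1) mm) (preq y v ||| pq y v ||| pb y v ||| pb (y + 1) v)

def axA (mm T : ℕ) (f u v w i j : ℕ) : ℕ :=
  match f with
  | 0 => c0 u v
  | 1 => c1 u i
  | 2 => c2 u i
  | 3 => c3 u i
  | 4 => c4 u j
  | 5 => c5 u j
  | 6 => c6 mm u j
  | 7 => c7 mm u j
  | 8 => c8 mm u j
  | 9 => c9 T u j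
  | 10 => c10 mm u
  | 11 => c11 u
  | 12 => c12 mm u i
  | 13 => c13 mm u i
  | 14 => c14 u w v
  | 15 => c15 mm u v j
  | _ => taut

def axB (mm T K0 al : ℕ) (V : Bool) (f u v w i j : ℕ) : ℕ :=
  match f with
  | 0 => c16 u v
  | 1 => c17 T u i j
  | 2 => c18 T j
  | 3 => c19 mm u i j
  | 4 => c20 mm j
  | 5 => c21 T
  | 6 => c22 T u v i j
  | 7 => c23 T u v w (i / 16) (i % 16) j
  | 8 => c24 T u j
  | 9 => c25 mm T u v w i
  | 10 => c26 mm K0 u w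
  | 11 => c27 mm u j
  | 12 => c28 mm u v j
  | 13 => c29 mm T K0 V u v w i
  | 14 => c30 al u
  | 15 => c31 al
  | _ => taut

def axC (mm al : ℕ) (f u v i j : ℕ) : ℕ :=
  match f with
  | 0 => c32 mm al u j
  | 1 => c33 al v
  | 2 => c34 al
  | 3 => c35 al i u
  | 4 => c36 al i u
  | 5 => c37 al i u
  | 6 => c38 al u j
  | 7 => c39 al u j
  | 8 => c40 mm al u j
  | 9 => c41 mm al u j
  | 10 => c42 mm al u j
  | _ => taut

def axD (mm T : ℕ) (f u v i j : ℕ) : ℕ :=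
  match f with
  | 0 => c43 mm v i
  | 1 => c44 mm v i
  | 2 => c45 mm u i
  | 3 => c46 mm u j
  | 4 => c47 mm T v u i j
  | 5 => c48 mm T v u i
  | 6 => c49 T v j
  | 7 => c50 mm T v j
  | 8 => c51 mm u v
  | 9 => c52 mm u v
  | 10 => c53 mm u v
  | _ => taut

/-- The axiom clause with tag `g`: `h` (4 bits), `f` (4), `u` (4), `v` (4), `w` (4), `i` (8), `j` (8). -/
def ax' (mm T K0 al : ℕ) (V : Bool) (h f u v w i j : ℕ) : ℕ :=
  match h with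
  | 0 => axA mm T f u v w i j
  | 1 => axB mm T K0 al V f u v w i j
  | 2 => axC mm al f u v i j
  | 3 => axD mm T f u v i j
  | _ => taut

def ax (mm T K0 al : ℕ) (V : Bool) (g : ℕ) : ℕ :=
  ax' mm T K0 al V (Nat.land g 15) (Nat.land (Nat.shiftRight g 4) 15) (Nat.land (Nat.shiftRight g 8) 15)
    (Nat.land (Nat.shiftRight g 12) 15) (Nat.land (Nat.shiftRight g 16) 15)
    (Nat.land (Nat.shiftRight g 20) 255) (Nat.land (Nat.shiftRight g 28) 255)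

end Pool.Agent.H39.S7
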