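import Mathlib

set_option autoImplicit false
set_option maxRecDepth 100000

namespace Pool.Agent.H39.S7

/-! Resolution chain checker, evaluated by the kernel.  Literals: `i < 2048` is variable `i`,
`2048 + i` its negation. A clause is the bit mask of its literals. -/

/-- the truth value of a literal -/
def tr (σ : ℕ → Prop) (i : ℕ) : Prop := if i < 2048 then σ i else ¬ σ (i - 2048)

/-- the clause `c` (a bit mask) is true -/
def holds (σ : ℕ → Prop) (c : ℕ) : Prop := ∃ i, Nat.testBit c i = true ∧ i < 4096 ∧ tr σ i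

inductive Tr : Type
  | l : Nat → Tr
  | n : Tr → Nat → Tr → Nat → Tr → Nat → Tr → Tr

noncomputable def get (t : Tr) : Nat → (Nat → Bool) → Bool :=
  Tr.rec (motive := fun _ => Nat → (Nat → Bool) → Bool) (fun v _ k => k v)
    (fun _ k1 _ k2 _ k3 _ ga gb gc gd i k =>
      Bool.rec (motive := fun _ => Bool)
        (Bool.rec (motive := fun _ => Bool) (gd i k) (gc i k) (Nat.ble i k3))
        (Bool.rec (motive := fun _ => Bool) (gb i k) (ga i k) (Nat.ble i k1)) (Nat.ble i k2)) t

noncomputable def ins (x : Nat) (t : Tr) : Nat → (Tr → Bool) → Bool :=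
  Tr.rec (motive := fun _ => Nat → (Tr → Bool) → Bool) (fun _ _ k => k (Tr.l x))
    (fun a k1 b k2 c k3 d ga gb gc gd i k =>
      Bool.rec (motive := fun _ => Bool)
        (Bool.rec (motive := fun _ => Bool) (gd i fun t => k (Tr.n a k1 b k2 c k3 t)) (gc i fun t => k (Tr.n a k1 b k2 t k3 d)) (Nat.ble i k3))
        (Bool.rec (motive := fun _ => Bool) (gb i fun t => k (Tr.n a k1 t k2 c k3 d)) (ga i fun t => k (Tr.n t k1 b k2 c k3 d)) (Nat.ble i k1)) (Nat.ble i k2)) t

/-- `R` resolved with `c`: literal `p` removed from `c`, its complement from `R` -/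
noncomputable def res (R c p : Nat) : Nat :=
  Nat.lor (Nat.xor R (Nat.land R (Nat.shiftLeft (nat_lit 1) (Nat.xor p (nat_lit 2048)))))
    (Nat.xor c (Nat.land c (Nat.shiftLeft (nat_lit 1) p)))

/-- resolution chain: `n` further hints; stream `s` -/
noncomputable def chain (db : Tr) (n : Nat) : Nat → Nat → (Nat → Nat → Bool) → Bool :=
  Nat.rec (motive := fun _ => Nat → Nat → (Nat → Nat → Bool) → Bool) (fun s R k => k s R)
    (fun _ ih s R k => get db (Nat.land s (nat_lit 4095)) fun c =>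
      ih (Nat.shiftRight s (nat_lit 24)) (res R c (Nat.land (Nat.shiftRight s (nat_lit 12)) (nat_lit 4095))) k) n

noncomputable def rec1 (ih : Nat → Tr → (Tr → Bool) → Bool) (db : Tr) (k : Tr → Bool) (slot : Nat) (s R : Nat) : Bool :=
  Bool.rec (motive := fun _ => Bool) (ins R db slot fun db' => ih s db' k) (Nat.beq R (nat_lit 0)) (Nat.beq slot (nat_lit 1))

/-- the records; `ax : Nat → Nat` computes an axiom clause from its tag (36 bits) -/
noncomputable def recs (ax : Nat → Nat) (fuel : Nat) : Nat → Tr → (Tr → Bool) → Bool :=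
  Nat.rec (motive := fun _ => Nat → Tr → (Tr → Bool) → Bool) (fun _ _ _ => false)
    (fun _ ih s db k => Bool.rec (motive := fun _ => Bool)
        (Bool.rec (motive := fun _ => Bool)
          (get db (Nat.land (Nat.shiftRight s (nat_lit 24)) (nat_lit 4095)) fun c =>
            chain db (Nat.land (Nat.shiftRight s (nat_lit 12)) (nat_lit 4095)) (Nat.shiftRight s (nat_lit 36)) c
              (rec1 ih db k (Nat.land s (nat_lit 4095))))
          (ins (ax (Nat.land (Nat.shiftRight s (nat_lit 24)) (nat_lit 68719476735))) db (Nat.land s (nat_lit 4095))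
            fun db' => ih (Nat.shiftRight s (nat_lit 60)) db' k)
          (Nat.beq (Nat.land (Nat.shiftRight s (nat_lit 12)) (nat_lit 4095)) (nat_lit 4095)))
        (k db) (Nat.beq s (nat_lit 0))) fuel

noncomputable def mk (h : Nat) : Nat → (Tr → Bool) → Bool :=
  Nat.rec (motive := fun _ => Nat → (Tr → Bool) → Bool) (fun _ k => k (Tr.l (Nat.add (nat_lit 1) (Nat.pow (nat_lit 2) (nat_lit 2048)))))
    (fun m ih lo k => ih lo fun a => ih (Nat.add lo (Nat.pow (nat_lit 4) m)) fun b => ih (Nat.add lo (Nat.mul (nat_lit 2) (Nat.pow (nat_lit 4) m))) fun c =>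
      ih (Nat.add lo (Nat.mul (nat_lit 3) (Nat.pow (nat_lit 4) m))) fun d =>
        k (Tr.n a (Nat.pred (Nat.add lo (Nat.pow (nat_lit 4) m))) b (Nat.pred (Nat.add lo (Nat.mul (nat_lit 2) (Nat.pow (nat_lit 4) m)))) c
          (Nat.pred (Nat.add lo (Nat.mul (nat_lit 3) (Nat.pow (nat_lit 4) m)))) d)) h

noncomputable def run (ax : Nat → Nat) (chunks : List Nat) (h : Nat) : Bool :=
  mk h (nat_lit 0) (List.rec (motive := fun _ => Tr → Bool) (fun _ => false)
    (fun s _ ih db => recs ax (nat_lit 100000) s db ih) chunks)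

/-! Soundness -/

def Tr.All (P : ℕ → Prop) : Tr → Prop
  | .l v => P v
  | .n a _ b _ c _ d => a.All P ∧ b.All P ∧ c.All P ∧ d.All P

theorem get_sound (P : ℕ → Prop) (t : Tr) (ht : t.All P) (i : ℕ) (k : ℕ → Bool)
    (h : get t i k = true) : ∃ c, P c ∧ k c = true := by
  induction t generalizing i with
  | l v => exact ⟨v, ht, h⟩
  | n a k1 b k2 c k3 d iha ihb ihc ihd =>
    obtain ⟨h1, h2, h3, h4⟩ := ht
    change Bool.rec (motive := fun _ => Bool)
        (Bool.rec (motive := fun _ => Bool) (get d i k) (get c i k) (Nat.ble i k3))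
        (Bool.rec (motive := fun _ => Bool) (get b i k) (get a i k) (Nat.ble i k1)) (Nat.ble i k2) = true at h
    cases h5 : Nat.ble i k2 <;> rw [h5] at h
    · cases h6 : Nat.ble i k3 <;> rw [h6] at h
      · exact ihd h4 i h
      · exact ihc h3 i h
    · cases h6 : Nat.ble i k1 <;> rw [h6] at h
      · exact ihb h2 i h
      · exact iha h1 i h

theorem ins_sound (P : ℕ → Prop) (x : ℕ) (hx : P x) (t : Tr) (ht : t.All P) (i : ℕ) (k : Tr → Bool)
    (h : ins x t i k = true) : ∃ t' : Tr, t'.All P ∧ k t' = true := by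
  induction t generalizing i k with
  | l v => exact ⟨.l x, hx, h⟩
  | n a k1 b k2 c k3 d iha ihb ihc ihd =>
    obtain ⟨h1, h2, h3, h4⟩ := ht
    change Bool.rec (motive := fun _ => Bool)
        (Bool.rec (motive := fun _ => Bool) (ins x d i fun t => k (Tr.n a k1 b k2 c k3 t)) (ins x c i fun t => k (Tr.n a k1 b k2 t k3 d)) (Nat.ble i k3))
        (Bool.rec (motive := fun _ => Bool) (ins x b i fun t => k (Tr.n a k1 t k2 c k3 d)) (ins x a i fun t => k (Tr.n t k1 b k2 c k3 d)) (Nat.ble i k1)) (Nat.ble i k2) = true at h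
    cases h5 : Nat.ble i k2 <;> rw [h5] at h
    · cases h6 : Nat.ble i k3 <;> rw [h6] at h
      · obtain ⟨t', h7, h8⟩ := ihd h4 i _ h
        exact ⟨Tr.n a k1 b k2 c k3 t', ⟨h1, h2, h3, h7⟩, h8⟩
      · obtain ⟨t', h7, h8⟩ := ihc h3 i _ h
        exact ⟨Tr.n a k1 b k2 t' k3 d, ⟨h1, h2, h7, h4⟩, h8⟩
    · cases h6 : Nat.ble i k1 <;> rw [h6] at h
      · obtain ⟨t', h7, h8⟩ := ihb h2 i _ h
        exact ⟨Tr.n a k1 t' k2 c k3 d, ⟨h1, h7, h3, h4⟩, h8⟩
      · obtain ⟨t', h7, h8⟩ := iha h1 i _ h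
        exact ⟨Tr.n t' k1 b k2 c k3 d, ⟨h7, h2, h3, h4⟩, h8⟩

theorem xor_fact : ∀ p < 4096, (p < 2048 → p ^^^ 2048 = p + 2048) ∧ (¬ p < 2048 → p ^^^ 2048 = p - 2048) := by
  decide +kernel

theorem tr_compl (σ : ℕ → Prop) (p : ℕ) (hp : p < 4096) (h1 : tr σ p) (h2 : tr σ (p ^^^ 2048)) : False := by
  obtain ⟨h3, h4⟩ := xor_fact p hp
  by_cases h : p < 2048
  · rw [h3 h] at h2
    unfold tr at h1 h2
    rw [if_pos h] at h1
    rw [if_neg (by omega)] at h2
    apply h2
    have : p + 2048 - 2048 = p := by omega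
    rw [this]; exact h1
  · rw [h4 h] at h2
    unfold tr at h1 h2
    rw [if_neg h] at h1
    rw [if_pos (by omega)] at h2
    exact h1 h2

theorem res_sound (σ : ℕ → Prop) (R c p : ℕ) (hp : p < 4096) (hR : holds σ R) (hc : holds σ c) :
    holds σ (res R c p) := by
  have hb : ∀ x q i : ℕ, Nat.testBit (Nat.xor x (Nat.land x (Nat.shiftLeft (nat_lit 1) q))) i
      = (Nat.testBit x i && !(decide (q = i))) := by
    intro x q i
    have h1 : Nat.shiftLeft (nat_lit 1) q = 2 ^ q := by
      have := Nat.one_shiftLeft q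
      exact this
    rw [h1]
    have h2 : Nat.testBit (x ^^^ (x &&& 2 ^ q)) i = (Nat.testBit x i && !(decide (q = i))) := by
      rw [Nat.testBit_xor, Nat.testBit_and, Nat.testBit_two_pow]
      cases Nat.testBit x i <;> cases decide (q = i) <;> rfl
    exact h2
  obtain ⟨i, hi, hi4, hti⟩ := hR
  obtain ⟨j, hj, hj4, htj⟩ := hc
  have hl : ∀ x y i : ℕ, Nat.testBit (Nat.lor x y) i = (Nat.testBit x i || Nat.testBit y i) := by
    intro x y i
    exact Nat.testBit_or x y i
  by_cases h1 : Nat.xor p (nat_lit 2048) = i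
  · by_cases h2 : p = j
    · exfalso
      subst h2
      rw [← h1] at hti
      exact tr_compl σ p hp htj hti
    · refine ⟨j, ?_, hj4, htj⟩
      unfold res
      rw [hl, hb, hb, hj]
      simp [h2]
  · refine ⟨i, ?_, hi4, hti⟩
    unfold res
    rw [hl, hb, hb, hi]
    have h3 : decide (Nat.xor p (nat_lit 2048) = i) = false := by simpa using h1
    rw [h3]
    rfl

theorem land_lt (s : ℕ) : Nat.land s 4095 < 4096 := by
  have h : s &&& 4095 ≤ 4095 := Nat.and_le_right
  exact Nat.lt_succ_of_le h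

theorem chain_sound (σ : ℕ → Prop) (db : Tr) (hdb : db.All (holds σ)) (n : ℕ) (s R : ℕ) (hR : holds σ R)
    (k : ℕ → ℕ → Bool) (h : chain db n s R k = true) : ∃ s' R', holds σ R' ∧ k s' R' = true := by
  induction n generalizing s R with
  | zero => exact ⟨s, R, hR, h⟩
  | succ n ih =>
    change (get db (Nat.land s (nat_lit 4095)) fun c =>
      chain db n (Nat.shiftRight s (nat_lit 24)) (res R c (Nat.land (Nat.shiftRight s (nat_lit 12)) (nat_lit 4095))) k) = true at h
    obtain ⟨c, hc, h1⟩ := get_sound _ db hdb _ _ h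
    exact ih _ _ (res_sound σ R c _ (land_lt _) hR hc) h1

theorem not_holds_zero (σ : ℕ → Prop) : ¬ holds σ 0 := by
  rintro ⟨i, h, -⟩
  simp at h

theorem recs_sound (σ : ℕ → Prop) (ax : ℕ → ℕ) (hax : ∀ x, holds σ (ax x)) (fuel : ℕ) (s : ℕ) (db : Tr)
    (hdb : db.All (holds σ)) (k : Tr → Bool) (h : recs ax fuel s db k = true) :
    ∃ db' : Tr, db'.All (holds σ) ∧ k db' = true := by
  induction fuel generalizing s db with
  | zero => exact absurd h (by simp [recs])
  | succ n ih =>
    change Bool.rec (motive := fun _ => Bool)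
        (Bool.rec (motive := fun _ => Bool)
          (get db (Nat.land (Nat.shiftRight s (nat_lit 24)) (nat_lit 4095)) fun c =>
            chain db (Nat.land (Nat.shiftRight s (nat_lit 12)) (nat_lit 4095)) (Nat.shiftRight s (nat_lit 36)) c
              (rec1 (recs ax n) db k (Nat.land s (nat_lit 4095))))
          (ins (ax (Nat.land (Nat.shiftRight s (nat_lit 24)) (nat_lit 68719476735))) db (Nat.land s (nat_lit 4095))
            fun db' => recs ax n (Nat.shiftRight s (nat_lit 60)) db' k)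
          (Nat.beq (Nat.land (Nat.shiftRight s (nat_lit 12)) (nat_lit 4095)) (nat_lit 4095)))
        (k db) (Nat.beq s (nat_lit 0)) = true at h
    generalize Nat.beq s (nat_lit 0) = b1 at h
    cases b1
    · generalize Nat.beq (Nat.land (Nat.shiftRight s (nat_lit 12)) (nat_lit 4095)) (nat_lit 4095) = b2 at h
      cases b2
      · obtain ⟨c, hc, h1⟩ := get_sound _ db hdb _ _ h
        obtain ⟨s', R', hR, h2⟩ := chain_sound σ db hdb _ _ _ hc _ h1
        unfold rec1 at h2
        generalize Nat.beq (Nat.land s (nat_lit 4095)) (nat_lit 1) = b3 at h2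
        cases b3
        · obtain ⟨t', h3, h4⟩ := ins_sound _ R' hR db hdb _ _ h2
          exact ih _ _ h3 h4
        · have h5 : R' = 0 := Nat.eq_of_beq_eq_true h2
          rw [h5] at hR
          exact absurd hR (not_holds_zero σ)
      · obtain ⟨t', h3, h4⟩ := ins_sound _ _ (hax _) db hdb _ _ h
        exact ih _ _ h3 h4
    · exact ⟨db, hdb, h⟩

theorem holds_taut (σ : ℕ → Prop) : holds σ (Nat.add (nat_lit 1) (Nat.pow (nat_lit 2) (nat_lit 2048))) := by
  by_cases h : σ 0
  · exact ⟨0, by decide +kernel, by norm_num, by simpa [tr] using h⟩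
  · exact ⟨2048, by decide +kernel, by norm_num, by simpa [tr] using h⟩

theorem mk_sound (σ : ℕ → Prop) (h lo : ℕ) (k : Tr → Bool) (hk : mk h lo k = true) :
    ∃ t : Tr, t.All (holds σ) ∧ k t = true := by
  induction h generalizing lo k with
  | zero => exact ⟨Tr.l _, holds_taut σ, hk⟩
  | succ n ih =>
    obtain ⟨a, ha, h1⟩ := ih _ _ hk
    obtain ⟨b, hb, h2⟩ := ih _ _ h1
    obtain ⟨c, hc, h3⟩ := ih _ _ h2
    obtain ⟨d, hd, h4⟩ := ih _ _ h3
    exact ⟨Tr.n a _ b _ c _ d, ⟨ha, hb, hc, hd⟩, h4⟩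

/-- the checker is sound -/
theorem run_sound (σ : ℕ → Prop) (ax : ℕ → ℕ) (hax : ∀ x, holds σ (ax x)) (chunks : List ℕ) (h : ℕ)
    (hr : run ax chunks h = true) : False := by
  unfold run at hr
  obtain ⟨t, ht, h1⟩ := mk_sound σ _ _ _ hr
  clear hr
  induction chunks generalizing t with
  | nil => exact absurd h1 (by simp)
  | cons s l ih =>
    obtain ⟨t', h2, h3⟩ := recs_sound σ ax hax _ _ _ ht _ h1
    exact ih t' h2 h3

end Pool.Agent.H39.S7
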