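import Pool.Agent.H39.S7.Chk

set_option autoImplicit false
set_option maxRecDepth 100000

namespace Pool.Agent.H39.S7

open Finset
open scoped Classical

/-! The finite system on the seven out-neighbours `0,...,6` of `x` (`u → v` is `a u v`), with
`n u v`: `v` is a second out-neighbour of `u`; `D u`, `t u`: numbers of arcs from `u` to `M`, from `M` to `u`;
`z u`: number of vertices of `M` at distance more than two from `u`; `b y v`: the arc from the `y`-th vertex of `M` to `v`;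
`K = |W|`, `T` the number of arcs from `M` to `S`. -/

/-- sort key of a vertex: arcs from `al`, from `1`, to `0`, then `A`, `7 - D`, `t` -/
noncomputable def key (al : ℕ) (a : ℕ → ℕ → Prop) (A D t : ℕ → ℕ) (u : ℕ) : ℕ :=
  2048 * (if a al u then 0 else 1) + 1024 * (if a 1 u then 0 else 1) + 512 * (if a u 0 then 1 else 0)
    + 64 * A u + 8 * (7 - D u) + t u

/-- row key of `y` in `M` -/
noncomputable def rk (b : ℕ → ℕ → Prop) (y : ℕ) : ℕ :=
  64 * (if b y 0 then 1 else 0) + 32 * (if b y 1 then 1 else 0) + 16 * (if b y 2 then 1 else 0)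
    + 8 * (if b y 3 then 1 else 0) + 4 * (if b y 4 then 1 else 0) + 2 * (if b y 5 then 1 else 0)
    + (if b y 6 then 1 else 0)

/-- lower bound for the number of arcs from `N(u) ∩ M` to `S` -/
def need (A C D : ℕ) : ℕ := D * (8 + C) - (D * (A + D) + D * (D - 1) / 2)

structure Sys (mm T K al : ℕ) where
  a : ℕ → ℕ → Prop
  n : ℕ → ℕ → Prop
  b : ℕ → ℕ → Prop
  A : ℕ → ℕ
  C : ℕ → ℕ
  D : ℕ → ℕ
  t : ℕ → ℕ
  z : ℕ → ℕ
  B : ℕ → ℕ
  h_or : ∀ u < 7, ∀ v < 7, a u v → ¬ a v u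
  hA : ∀ u < 7, A u = ((range 7).filter (fun v => a u v)).card
  hC : ∀ u < 7, C u = ((range 7).filter (fun v => n u v)).card
  h_nx : ∀ u < 7, ∀ v < 7, n u v → ¬ a u v ∧ u ≠ v
  h_n2 : ∀ u < 7, ∀ w < 7, ∀ v < 7, a u w → a w v → u ≠ v → ¬ a u v → n u v
  h_nM : ∀ u < 7, ∀ v < 7, mm < D u + t v → u ≠ v → ¬ a u v → n u v
  h_deg : ∀ u < 7, 7 ≤ A u + D u ∧ 1 ≤ A u ∧ 1 ≤ D u ∧ D u + t u ≤ mm
  hT : ∑ u ∈ range 7, t u = T
  hb : ∀ v < 7, t v = ((range mm).filter (fun y => b y v)).card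
  hB : ∀ y < mm, B y = ((range 7).filter (fun v => b y v)).card
  h_need : ∀ u < 7, ∀ X : Finset ℕ, X ⊆ range 7 → u ∉ X → (∀ v ∈ X, ¬ a u v ∧ ¬ n u v) →
    need (A u) (C u) (D u) + t u + ∑ v ∈ X, t v ≤ T
  h_needb : ∀ u < 7, need (A u) (C u) (D u) + ∑ y ∈ (range mm).filter (fun y => b y u), B y ≤ T
  h_full : ∀ u < 7, D u = mm → C u + K + 1 ≤ A u + mm
  h_z1 : ∀ u < 7, z u + D u ≤ mm
  h_z2 : ∀ u < 7, ∀ v < 7, a u v → z u + D v ≤ mm
  h_F3 : ∀ u < 7, D u < mm → C u + mm + K + 1 ≤ A u + 2 * D u + z u + min K ((mm * K + T + mm * (mm - 1) / 2 - 7 * mm) / D u)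
  h_min : ∀ u < 7, 8 * A 0 + D 0 ≤ 8 * A u + D u
  h_al : A 0 = al
  h_fix : ∀ v < 7, (a 0 v ↔ 1 ≤ v ∧ v ≤ al)
  h_21 : al = 2 → ¬ a 2 1
  h_key : ∀ u, al < u → u + 1 < 7 → key al a A D t u ≤ key al a A D t (u + 1)
  h_row : ∀ y, y + 1 < mm → rk b (y + 1) ≤ rk b y

/-! Variables. `2048` of them:
`a` 0.. , `n` 64.. , `A` 128.. , `C` 192.. , `D` 256.. , `t` 320.. , `z` 384.. , `e` 448.. , `f` 456.. ,
`L` 464.. (three blocks of eight), `Ts` 512.. , `nd` 640.. , `b` 768.. , `B` 832.. , `q` 896.. , `bs` 1024.. -/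

variable {mm T K al : ℕ}

/-- the three binary keys -/
def Sys.ky (X : Sys mm T K al) (i u : ℕ) : Prop :=
  if i = 0 then X.a al u else if i = 1 then X.a 1 u else ¬ X.a u 0

def Sys.Ts (X : Sys mm T K al) (u : ℕ) : ℕ := ∑ v ∈ range (u + 1), X.t v
def Sys.nd (X : Sys mm T K al) (u : ℕ) : ℕ := need (X.A u) (X.C u) (X.D u)
noncomputable def Sys.bs (X : Sys mm T K al) (v y : ℕ) : ℕ := ∑ y' ∈ (range (y + 1)).filter (fun y' => X.b y' v), X.B y'
def Sys.L (X : Sys mm T K al) (i u : ℕ) : Prop := ∀ i' ≤ i, (X.ky i' u ↔ X.ky i' (u + 1))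
def Sys.e (X : Sys mm T K al) (u : ℕ) : Prop := X.L 2 u ∧ X.A u = X.A (u + 1)
def Sys.f (X : Sys mm T K al) (u : ℕ) : Prop := X.e u ∧ X.D u = X.D (u + 1)
def Sys.q (X : Sys mm T K al) (y v : ℕ) : Prop := ∀ v' ≤ v, (X.b y v' ↔ X.b (y + 1) v')

/-- meaning of the variables -/
def Sys.sem (X : Sys mm T K al) (i : ℕ) : Prop :=
  if i < 64 then X.a (i / 8) (i % 8)
  else if i < 128 then X.n ((i - 64) / 8) (i % 8)
  else if i < 192 then i % 8 ≤ X.A ((i - 128) / 8)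
  else if i < 256 then i % 8 ≤ X.C ((i - 192) / 8)
  else if i < 320 then i % 8 ≤ X.D ((i - 256) / 8)
  else if i < 384 then i % 8 ≤ X.t ((i - 320) / 8)
  else if i < 448 then i % 8 ≤ X.z ((i - 384) / 8)
  else if i < 456 then X.e (i - 448)
  else if i < 464 then X.f (i - 456)
  else if i < 512 then X.L ((i - 464) / 8) (i % 8)
  else if i < 640 then i % 16 ≤ X.Ts ((i - 512) / 16)
  else if i < 768 then i % 16 ≤ X.nd ((i - 640) / 16)
  else if i < 832 then X.b ((i - 768) / 8) (i % 8)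
  else if i < 896 then i % 8 ≤ X.B ((i - 832) / 8)
  else if i < 1024 then X.q ((i - 896) / 8) (i % 8)
  else i % 16 ≤ X.bs ((i - 1024) / 128) ((i - 1024) / 16 % 8)

end Pool.Agent.H39.S7
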