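import Pool.Agent.H39.S7.Snd
import Pool.Agent.H39.S7.Cert1
import Pool.Agent.H39.S7.Cert2
import Pool.Agent.H39.S7.Cert3
import Pool.Agent.H39.S7.Cert4
import Pool.Agent.H39.S7.Cert5
import Pool.Agent.H39.S7.Cert6
import Pool.Agent.H39.S7.Cert7

/-! The finite system has no solution: the refutations put together. -/

set_option autoImplicit false

namespace Pool.Agent.H39.S7

/-- `K = K0` -/
theorem rf1 {mm T K al : ℕ} (X : Sys mm T K al) (hm1 : 1 ≤ mm) (hm : mm ≤ 6) (hT : T ≤ 14) (h1 : 1 ≤ al)
    (h2 : al ≤ 2) (K0 : ℕ) (hK : K = K0) {chunks : List ℕ} {h : ℕ}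
    (hr : run (ax mm T K0 al true) chunks h = true) : False :=
  run_false X hm1 hm hT h1 h2 K0 hK.ge true (fun _ => hK) chunks h hr

/-- `K0 ≤ K` -/
theorem rf0 {mm T K al : ℕ} (X : Sys mm T K al) (hm1 : 1 ≤ mm) (hm : mm ≤ 6) (hT : T ≤ 14) (h1 : 1 ≤ al)
    (h2 : al ≤ 2) (K0 : ℕ) (hK : K0 ≤ K) {chunks : List ℕ} {h : ℕ}
    (hr : run (ax mm T K0 al false) chunks h = true) : False :=
  run_false X hm1 hm hT h1 h2 K0 hK false (fun h => absurd h Bool.false_ne_true) chunks h hr

theorem no_sys6 {T K al : ℕ} (X : Sys 6 T K al) (hT1 : 1 ≤ T) (hT : T ≤ 14) (h1 : 1 ≤ al) (h2 : al ≤ 2)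
    (hK : 42 ≤ T + 15 + 6 * K) (h34 : ¬ (T = 3 ∧ K = 4)) : False := by
  have hal : al = 1 ∨ al = 2 := by omega
  have hTT : T = 1 ∨ T = 2 ∨ T = 3 ∨ T = 4 ∨ T = 5 ∨ T = 6 ∨ T = 7 ∨ T = 8 ∨ T = 9 ∨ T = 10 ∨ T = 11 ∨ T = 12 ∨ T = 13 ∨ T = 14 := by omega
  rcases hal with rfl | rfl
  · rcases hTT with rfl | rfl | rfl | rfl | rfl | rfl | rfl | rfl | rfl | rfl | rfl | rfl | rfl | rfl
    · by_cases hk : K = 5
      · exact rf1 X (by omega) (by omega) (by omega) (by omega) (by omega) 5 hk r6_1_5_1_1
      · exact rf0 X (by omega) (by omega) (by omega) (by omega) (by omega) 6 (by omega) r6_1_6_1_0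
    · by_cases hk : K = 5
      · exact rf1 X (by omega) (by omega) (by omega) (by omega) (by omega) 5 hk r6_2_5_1_1
      · exact rf0 X (by omega) (by omega) (by omega) (by omega) (by omega) 6 (by omega) r6_2_6_1_0
    · exact rf0 X (by omega) (by omega) (by omega) (by omega) (by omega) 5 (by omega) r6_3_5_1_0
    · by_cases hk : K = 4
      · exact rf1 X (by omega) (by omega) (by omega) (by omega) (by omega) 4 hk r6_4_4_1_1
      · exact rf0 X (by omega) (by omega) (by omega) (by omega) (by omega) 5 (by omega) r6_4_5_1_0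
    · by_cases hk : K = 4
      · exact rf1 X (by omega) (by omega) (by omega) (by omega) (by omega) 4 hk r6_5_4_1_1
      · exact rf0 X (by omega) (by omega) (by omega) (by omega) (by omega) 5 (by omega) r6_5_5_1_0
    · by_cases hk : K = 4
      · exact rf1 X (by omega) (by omega) (by omega) (by omega) (by omega) 4 hk r6_6_4_1_1
      · exact rf0 X (by omega) (by omega) (by omega) (by omega) (by omega) 5 (by omega) r6_6_5_1_0
    · by_cases hk : K = 4
      · exact rf1 X (by omega) (by omega) (by omega) (by omega) (by omega) 4 hk r6_7_4_1_1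
      · exact rf0 X (by omega) (by omega) (by omega) (by omega) (by omega) 5 (by omega) r6_7_5_1_0
    · by_cases hk : K = 4
      · exact rf1 X (by omega) (by omega) (by omega) (by omega) (by omega) 4 hk r6_8_4_1_1
      · exact rf0 X (by omega) (by omega) (by omega) (by omega) (by omega) 5 (by omega) r6_8_5_1_0
    · by_cases hk : K = 3
      · exact rf1 X (by omega) (by omega) (by omega) (by omega) (by omega) 3 hk r6_9_3_1_1
      · exact rf0 X (by omega) (by omega) (by omega) (by omega) (by omega) 4 (by omega) r6_9_4_1_0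
    · by_cases hk : K = 3
      · exact rf1 X (by omega) (by omega) (by omega) (by omega) (by omega) 3 hk r6_10_3_1_1
      · exact rf0 X (by omega) (by omega) (by omega) (by omega) (by omega) 4 (by omega) r6_10_4_1_0
    · by_cases hk : K = 3
      · exact rf1 X (by omega) (by omega) (by omega) (by omega) (by omega) 3 hk r6_11_3_1_1
      · exact rf0 X (by omega) (by omega) (by omega) (by omega) (by omega) 4 (by omega) r6_11_4_1_0
    · by_cases hk : K = 3
      · exact rf1 X (by omega) (by omega) (by omega) (by omega) (by omega) 3 hk r6_12_3_1_1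
      · exact rf0 X (by omega) (by omega) (by omega) (by omega) (by omega) 4 (by omega) r6_12_4_1_0
    · by_cases hk : K = 3
      · exact rf1 X (by omega) (by omega) (by omega) (by omega) (by omega) 3 hk r6_13_3_1_1
      · exact rf0 X (by omega) (by omega) (by omega) (by omega) (by omega) 4 (by omega) r6_13_4_1_0
    · by_cases hk : K = 3
      · exact rf1 X (by omega) (by omega) (by omega) (by omega) (by omega) 3 hk r6_14_3_1_1
      · exact rf0 X (by omega) (by omega) (by omega) (by omega) (by omega) 4 (by omega) r6_14_4_1_0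
  · rcases hTT with rfl | rfl | rfl | rfl | rfl | rfl | rfl | rfl | rfl | rfl | rfl | rfl | rfl | rfl
    · by_cases hk : K = 5
      · exact rf1 X (by omega) (by omega) (by omega) (by omega) (by omega) 5 hk r6_1_5_2_1
      · exact rf0 X (by omega) (by omega) (by omega) (by omega) (by omega) 6 (by omega) r6_1_6_2_0
    · by_cases hk : K = 5
      · exact rf1 X (by omega) (by omega) (by omega) (by omega) (by omega) 5 hk r6_2_5_2_1
      · exact rf0 X (by omega) (by omega) (by omega) (by omega) (by omega) 6 (by omega) r6_2_6_2_0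
    · exact rf0 X (by omega) (by omega) (by omega) (by omega) (by omega) 5 (by omega) r6_3_5_2_0
    · by_cases hk : K = 4
      · exact rf1 X (by omega) (by omega) (by omega) (by omega) (by omega) 4 hk r6_4_4_2_1
      · exact rf0 X (by omega) (by omega) (by omega) (by omega) (by omega) 5 (by omega) r6_4_5_2_0
    · by_cases hk : K = 4
      · exact rf1 X (by omega) (by omega) (by omega) (by omega) (by omega) 4 hk r6_5_4_2_1
      · exact rf0 X (by omega) (by omega) (by omega) (by omega) (by omega) 5 (by omega) r6_5_5_2_0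
    · by_cases hk : K = 4
      · exact rf1 X (by omega) (by omega) (by omega) (by omega) (by omega) 4 hk r6_6_4_2_1
      · exact rf0 X (by omega) (by omega) (by omega) (by omega) (by omega) 5 (by omega) r6_6_5_2_0
    · by_cases hk : K = 4
      · exact rf1 X (by omega) (by omega) (by omega) (by omega) (by omega) 4 hk r6_7_4_2_1
      · exact rf0 X (by omega) (by omega) (by omega) (by omega) (by omega) 5 (by omega) r6_7_5_2_0
    · by_cases hk : K = 4
      · exact rf1 X (by omega) (by omega) (by omega) (by omega) (by omega) 4 hk r6_8_4_2_1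
      · exact rf0 X (by omega) (by omega) (by omega) (by omega) (by omega) 5 (by omega) r6_8_5_2_0
    · by_cases hk : K = 3
      · exact rf1 X (by omega) (by omega) (by omega) (by omega) (by omega) 3 hk r6_9_3_2_1
      · exact rf0 X (by omega) (by omega) (by omega) (by omega) (by omega) 4 (by omega) r6_9_4_2_0
    · by_cases hk : K = 3
      · exact rf1 X (by omega) (by omega) (by omega) (by omega) (by omega) 3 hk r6_10_3_2_1
      · exact rf0 X (by omega) (by omega) (by omega) (by omega) (by omega) 4 (by omega) r6_10_4_2_0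
    · by_cases hk : K = 3
      · exact rf1 X (by omega) (by omega) (by omega) (by omega) (by omega) 3 hk r6_11_3_2_1
      · exact rf0 X (by omega) (by omega) (by omega) (by omega) (by omega) 4 (by omega) r6_11_4_2_0
    · by_cases hk : K = 3
      · exact rf1 X (by omega) (by omega) (by omega) (by omega) (by omega) 3 hk r6_12_3_2_1
      · exact rf0 X (by omega) (by omega) (by omega) (by omega) (by omega) 4 (by omega) r6_12_4_2_0
    · by_cases hk : K = 3
      · exact rf1 X (by omega) (by omega) (by omega) (by omega) (by omega) 3 hk r6_13_3_2_1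
      · exact rf0 X (by omega) (by omega) (by omega) (by omega) (by omega) 4 (by omega) r6_13_4_2_0
    · by_cases hk : K = 3
      · exact rf1 X (by omega) (by omega) (by omega) (by omega) (by omega) 3 hk r6_14_3_2_1
      · exact rf0 X (by omega) (by omega) (by omega) (by omega) (by omega) 4 (by omega) r6_14_4_2_0

theorem no_sys5 {T K : ℕ} (X : Sys 5 T K 2) (hT1 : 1 ≤ T) (hT : T ≤ 7) (hK : 4 ≤ K) : False := by
  have hTT : T = 1 ∨ T = 2 ∨ T = 3 ∨ T = 4 ∨ T = 5 ∨ T = 6 ∨ T = 7 := by omega
  rcases hTT with rfl | rfl | rfl | rfl | rfl | rfl | rfl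
  · exact rf0 X (by omega) (by omega) (by omega) (by omega) (by omega) 4 hK r5_1_4_2_0
  · exact rf0 X (by omega) (by omega) (by omega) (by omega) (by omega) 4 hK r5_2_4_2_0
  · exact rf0 X (by omega) (by omega) (by omega) (by omega) (by omega) 4 hK r5_3_4_2_0
  · exact rf0 X (by omega) (by omega) (by omega) (by omega) (by omega) 4 hK r5_4_4_2_0
  · exact rf0 X (by omega) (by omega) (by omega) (by omega) (by omega) 4 hK r5_5_4_2_0
  · exact rf0 X (by omega) (by omega) (by omega) (by omega) (by omega) 4 hK r5_6_4_2_0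
  · exact rf0 X (by omega) (by omega) (by omega) (by omega) (by omega) 4 hK r5_7_4_2_0

end Pool.Agent.H39.S7
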