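import Pool.Agent.H39.S7.G.H0
import Pool.Agent.H39.S7.G.H3
import Pool.Agent.H39.S7.G.H4
import Pool.Agent.H39.S7.G.Mk
import Pool.Agent.H39.S7.Fin

set_option autoImplicit false

namespace Pool.Agent.H39.S7

open Classical Pool.Agent.H39.Burckel

variable {V : Type} [Fintype V]

/-- No oriented graph without Seymour vertices has minimum out-degree seven. -/
theorem no_bad_seven (G : Digraph V) (hG : Oriented G) (hbad : ∀ v, (N2 G v).card < (N G v).card)
    (hdeg : ∀ v, 7 ≤ (N G v).card) (x0 : V) (hx0 : (N G x0).card = 7) : False := by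
  obtain ⟨x, hx, hmax⟩ := Finset.exists_max_image (Finset.univ.filter fun x => (N G x).card = 7)
    (fun x => cT G (N G x) (N2 G x)) ⟨x0, by simp [hx0]⟩
  rw [Finset.mem_filter] at hx
  have c := cfg7_of G hG hbad hdeg x hx.2
  generalize hW : ((N2 G x).biUnion fun y => N G y) \ (N G x ∪ N2 G x) = W at c
  have hmax' : ∀ y, (N G y).card = 7 → cT G (N G y) (N2 G y) ≤ cT G (N G x) (N2 G x) := by
    intro y hy
    exact hmax y (by simp [hy])
  have hT1 := c.T_pos
  have hT2 := c.T_le
  have hK := c.K_ge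
  have hM := c.hM
  have hM5 : 5 ≤ (N2 G x).card := by omega
  by_cases hreg : ∀ u ∈ N G x, 3 ≤ cA G (N G x) u
  · exact c.not_reg hT1 hM5 hreg
  push Not at hreg
  obtain ⟨u1, hu1, hu1'⟩ := hreg
  obtain ⟨u0, hu0, hmin⟩ := Finset.exists_min_image (N G x) (fun u => cA G (N G x) u) ⟨u1, hu1⟩
  have h2 : cA G (N G x) u0 ≤ 2 := by have := hmin u1 hu1; omega
  have hd0 := c.deg hu0
  have h1 : 1 ≤ cA G (N G x) u0 := hd0.2.1
  obtain ⟨X⟩ := c.exists_sys h1 h2 ⟨u0, hu0, rfl⟩ hmin
  have h56 : (N2 G x).card = 5 ∨ (N2 G x).card = 6 := by omega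
  rcases h56 with h5 | h6
  · have hal : cA G (N G x) u0 = 2 := by
      have := hd0.1
      have := hd0.2.2.2.1
      omega
    rw [hal] at X
    rw [h5] at X hT2 hK
    exact no_sys5 X hT1 (by omega) (by omega)
  · have h34 : ¬ (cT G (N G x) (N2 G x) = 3 ∧ W.card = 4) := by
      rintro ⟨ha, hb⟩
      exact c.not_three h6 hb hmax' ha
    rw [h6] at X hT2 hK
    exact no_sys6 X hT1 (by omega) h1 h2 (by omega) h34

/-- Every finite oriented graph with a vertex of out-degree at most seven has a Seymour vertex. -/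
theorem seymour_seven (G : Digraph V) (hG : Oriented G) (x : V) (hx : (N G x).card ≤ 7) :
    ∃ v, IsSeymour G v := by
  by_contra hcon
  push Not at hcon
  have hbad : ∀ v, (N2 G v).card < (N G v).card := by
    intro v
    have := hcon v
    rw [isSeymour_iff] at this
    omega
  have hdeg : ∀ v, 7 ≤ (N G v).card := by
    intro v
    by_contra hv
    obtain ⟨w, hw⟩ := kaneko_locke G hG v (by omega)
    exact hcon w hw
  have h7 : (N G x).card = 7 := le_antisymm hx (hdeg x)
  exact no_bad_seven G hG hbad hdeg x h7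

end Pool.Agent.H39.S7
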