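import Pool.Agent.H39.S7.SndBase

/-! Row S2. Truth of the clauses of group 2 (definitions in `Ax.lean`, variables and `Sys` in `Fam.lean`,
literals in `SndBase.lean`).
Pattern: `refine holds_gd (fun h => ?_)`, then `simp only [l7, ltb, neb, Bool.and_eq_true, ...] at h` (with `Nat.le_of_ble_eq_true`)
to get the ranges as inequalities; then `by_cases` on the semantic literals and `holds_left`/`holds_right`/`holds_or` with the
`h_..` lemmas of `SndBase.lean`. Every clause is an elementary consequence of the fields of `Sys` (by `omega` or counting):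
`c10`-`c13`: `h_deg`. `c14`: `h_n2`. `c15`: `h_nM`. `c16`: `h_nx`. `c17`-`c21`: `Ts u = Ts (u-1) + t u` (`sum_range_succ`), `Ts 0 = t 0`,
`Ts 6 = T` (`hT`).
Do NOT unfold `taut` or let `exact`/`simp`/`decide` see through `gd`/`taut` (it contains `2 ^ 2048`): use `holds_gd`, and keep
`attribute [local irreducible] taut gd` at the top. -/

set_option autoImplicit false
set_option maxRecDepth 100000

namespace Pool.Agent.H39.S7

open Finset
open scoped Classical

attribute [local irreducible] taut gd

variable {mm T K al : ℕ} (X : Sys mm T K al)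

private theorem l7_lt {u : ℕ} (h : l7 u = true) : u < 7 := by
  have := Nat.le_of_ble_eq_true h
  omega

private theorem ltb_lt {u v : ℕ} (h : ltb u v = true) : u < v := Nat.le_of_ble_eq_true h

private theorem neb_ne {u v : ℕ} (h : neb u v = true) : u ≠ v := by
  rintro rfl
  unfold neb at h
  rw [Nat.beq_refl] at h
  exact absurd h (by decide)

private theorem Ts_pred {u : ℕ} (hu : 0 < u) : X.Ts u = X.Ts (u - 1) + X.t u := by
  unfold Sys.Ts
  rw [show u - 1 + 1 = u by omega, Finset.sum_range_succ]

private theorem Ts_zero : X.Ts 0 = X.t 0 := by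
  unfold Sys.Ts
  rw [Finset.sum_range_succ, Finset.sum_range_zero, Nat.zero_add]

theorem c10_snd (hm : mm ≤ 6) (u : ℕ) : holds X.sem (c10 mm u) := by
  refine holds_gd (fun h => ?_)
  have hu := l7_lt h
  have hd := X.h_deg u hu
  exact h_pD X (by omega) hu (by omega)

theorem c11_snd (u : ℕ) : holds X.sem (c11 u) := by
  refine holds_gd (fun h => ?_)
  have hu := l7_lt h
  have hd := X.h_deg u hu
  exact h_pA X hu (by omega)

theorem c12_snd (hm : mm ≤ 6) (u i : ℕ) : holds X.sem (c12 mm u i) := by
  refine holds_gd (fun h => ?_)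
  rw [Bool.and_eq_true] at h
  have hu := l7_lt h.1
  have hd := X.h_deg u hu
  by_cases h1 : i + 1 ≤ X.A u
  · exact holds_left (h_pA X hu h1)
  · exact holds_right (h_pD X (by omega) hu (by omega))

theorem c13_snd (hm : mm ≤ 6) (u i : ℕ) : holds X.sem (c13 mm u i) := by
  refine holds_gd (fun h => ?_)
  rw [Bool.and_eq_true] at h
  have hu := l7_lt h.1
  have hd := X.h_deg u hu
  by_cases h1 : i ≤ X.D u
  · exact holds_right (h_nt X hu (by omega))
  · exact holds_left (h_nD X hu h1)

theorem c14_snd (u w v : ℕ) : holds X.sem (c14 u w v) := by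
  refine holds_gd (fun h => ?_)
  rw [Bool.and_eq_true, Bool.and_eq_true, Bool.and_eq_true] at h
  have hu := l7_lt h.1.1.1
  have hv := l7_lt h.1.1.2
  have hw := l7_lt h.1.2
  have huv := neb_ne h.2
  by_cases h1 : X.a u w
  · by_cases h2 : X.a w v
    · by_cases h3 : X.a u v
      · exact holds_left (holds_right (h_pa X (by omega) (by omega) h3))
      · exact holds_right (h_pn X (by omega) (by omega) (X.h_n2 u hu w hw v hv h1 h2 huv h3))
    · exact holds_left (holds_left (holds_right (h_na X (by omega) (by omega) h2)))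
  · exact holds_left (holds_left (holds_left (h_na X (by omega) (by omega) h1)))

theorem c15_snd (hm : mm ≤ 6) (u v j : ℕ) : holds X.sem (c15 mm u v j) := by
  refine holds_gd (fun h => ?_)
  rw [Bool.and_eq_true, Bool.and_eq_true, Bool.and_eq_true] at h
  have hu := l7_lt h.1.1.1
  have hv := l7_lt h.1.1.2
  have huv := neb_ne h.1.2
  have hj := ltb_lt h.2
  by_cases h1 : j ≤ X.t v
  · by_cases h2 : mm + 1 - j ≤ X.D u
    · by_cases h3 : X.a u v
      · exact holds_left (holds_right (h_pa X (by omega) (by omega) h3))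
      · exact holds_right (h_pn X (by omega) (by omega) (X.h_nM u hu v hv (by omega) huv h3))
    · exact holds_left (holds_left (holds_right (h_nD X hu h2)))
  · exact holds_left (holds_left (holds_left (h_nt X hv h1)))

theorem c16_snd (u v : ℕ) : holds X.sem (c16 u v) := by
  refine holds_gd (fun h => ?_)
  rw [Bool.and_eq_true] at h
  have hu := l7_lt h.1
  have hv := l7_lt h.2
  by_cases h1 : X.n u v
  · exact holds_right (h_na X (by omega) (by omega) (X.h_nx u hu v hv h1).1)
  · exact holds_left (h_nn X (by omega) (by omega) h1)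

theorem c17_snd (hT : T ≤ 14) (u i j : ℕ) : holds X.sem (c17 T u i j) := by
  refine holds_gd (fun h => ?_)
  rw [Bool.and_eq_true] at h
  have hu := l7_lt h.1
  have h0 := ltb_lt h.2
  have hs := Ts_pred X h0
  by_cases h1 : i ≤ X.Ts (u - 1)
  · by_cases h2 : j ≤ X.t u
    · exact holds_left (holds_left (h_pTs X (by omega) hu (by omega)))
    · exact holds_right (h_nt X hu h2)
  · exact holds_left (holds_right (h_nTs X (by omega) h1))

theorem c18_snd (hT : T ≤ 14) (j : ℕ) : holds X.sem (c18 T j) := by
  have hs := Ts_zero X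
  unfold c18
  by_cases h2 : j ≤ X.t 0
  · exact holds_left (h_pTs X (by omega) (by omega) (by omega))
  · exact holds_right (h_nt X (by omega) h2)

theorem c19_snd (hm : mm ≤ 6) (hT : T ≤ 14) (u i j : ℕ) : holds X.sem (c19 mm u i j) := by
  refine holds_gd (fun h => ?_)
  rw [Bool.and_eq_true, Bool.and_eq_true, Bool.and_eq_true] at h
  have hu := l7_lt h.1.1.1
  have h0 := ltb_lt h.1.1.2
  have hs := Ts_pred X h0
  by_cases h1 : i + j + 1 ≤ X.Ts u
  · by_cases h2 : i + 1 ≤ X.Ts (u - 1)
    · exact holds_left (holds_right (h_pTs' X (by omega) (by omega) h2))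
    · exact holds_right (h_pt X (by omega) hu (by omega))
  · exact holds_left (holds_left (h_nTs X hu h1))

theorem c20_snd (hm : mm ≤ 6) (hT : T ≤ 14) (j : ℕ) : holds X.sem (c20 mm j) := by
  refine holds_gd (fun h => ?_)
  have hs := Ts_zero X
  by_cases h1 : j + 1 ≤ X.Ts 0
  · exact holds_right (h_pt X (by omega) (by omega) (by omega))
  · exact holds_left (h_nTs X (by omega) h1)

theorem c21_snd (hT : T ≤ 14) : holds X.sem (c21 T) := by
  have hs : X.Ts 6 = T := X.hT
  unfold c21
  exact h_pTs X (by omega) (by omega) (by omega)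

end Pool.Agent.H39.S7
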