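import Pool.Agent.H39.S7.SndBase

/-! Row S3. Truth of the clauses of group 3 (definitions in `Ax.lean`, variables and `Sys` in `Fam.lean`,
literals in `SndBase.lean`).
Pattern: `refine holds_gd (fun h => ?_)`, then `simp only [l7, ltb, neb, Bool.and_eq_true, ...] at h` (with `Nat.le_of_ble_eq_true`)
to get the ranges as inequalities; then `by_cases` on the semantic literals and `holds_left`/`holds_right`/`holds_or` with the
`h_..` lemmas of `SndBase.lean`. Every clause is an elementary consequence of the fields of `Sys` (by `omega` or counting):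
`c22`-`c24`: `h_need` with `X = {v}`, `{v, w}`, `∅`. `c25`: `need` is increasing in `C` and decreasing in `A` (`D = d ≤ 6`: `interval_cases d`, then
`omega`/`simp [need]`). `c26`: `h_full` and `K0 ≤ K`. `c27`, `c28`: `h_z1`, `h_z2`. `c29`: `h_F3` with `K = K0` (the quotient is a fixed number; do not unfold it).
Do NOT unfold `taut` or let `exact`/`simp`/`decide` see through `gd`/`taut` (it contains `2 ^ 2048`): use `holds_gd`, and keep
`attribute [local irreducible] taut gd` at the top. -/

set_option autoImplicit false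
set_option maxRecDepth 100000

namespace Pool.Agent.H39.S7

open Finset
open scoped Classical

attribute [local irreducible] taut gd

variable {mm T K al : ℕ} (X : Sys mm T K al)

theorem S3_l7 {u : ℕ} (h : l7 u = true) : u < 7 := by
  have := Nat.le_of_ble_eq_true (show Nat.ble u 6 = true from h)
  omega

theorem S3_ltb {u v : ℕ} (h : ltb u v = true) : u < v :=
  Nat.le_of_ble_eq_true (show Nat.ble (u + 1) v = true from h)

theorem S3_neb {u v : ℕ} (h : neb u v = true) : u ≠ v := by
  rintro rfl
  have h1 : Nat.beq u u = true := Nat.beq_refl u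
  unfold neb at h
  rw [h1] at h
  exact absurd h (by decide)

theorem c22_snd (hT : T ≤ 14) (u v i j : ℕ) : holds X.sem (c22 T u v i j) := by
  refine holds_gd (fun h => ?_)
  simp only [Bool.and_eq_true] at h
  obtain ⟨⟨⟨h1, h2⟩, h3⟩, h4⟩ := h
  have hu := S3_l7 h1
  have hv := S3_l7 h2
  have hne := S3_neb h3
  have hij := S3_ltb h4
  by_cases k1 : j ≤ X.nd u
  swap
  · exact holds_left (holds_left (holds_left (holds_left (h_nnd X hu k1))))
  by_cases k2 : X.a u v
  · exact holds_left (holds_left (holds_left (holds_right (h_pa X (by omega) (by omega) k2))))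
  by_cases k3 : X.n u v
  · exact holds_left (holds_left (holds_right (h_pn X (by omega) (by omega) k3)))
  by_cases k4 : i ≤ X.t u
  swap
  · exact holds_left (holds_right (h_nt X hu k4))
  refine holds_right (h_nt X hv ?_)
  have h := X.h_need u hu {v} (by simpa using hv) (by simpa using hne) (by
    intro w hw
    rw [mem_singleton] at hw
    subst hw
    exact ⟨k2, k3⟩)
  rw [sum_singleton] at h
  unfold Sys.nd at k1
  omega

theorem c23_snd (hT : T ≤ 14) (u v w i i' j : ℕ) : holds X.sem (c23 T u v w i i' j) := by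
  refine holds_gd (fun h => ?_)
  simp only [Bool.and_eq_true] at h
  obtain ⟨⟨⟨⟨⟨⟨h1, h2⟩, h3⟩, h4⟩, h5⟩, h6⟩, h7⟩ := h
  have hu := S3_l7 h1
  have hv := S3_l7 h2
  have hw := S3_l7 h3
  have n1 := S3_neb h4
  have n2 := S3_neb h5
  have n3 := S3_neb h6
  have hij := S3_ltb h7
  by_cases k1 : j ≤ X.nd u
  swap
  · exact holds_left (holds_left (holds_left (holds_left (holds_left (holds_left (holds_left
      (h_nnd X hu k1)))))))
  by_cases k2 : X.a u v
  · exact holds_left (holds_left (holds_left (holds_left (holds_left (holds_left (holds_right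
      (h_pa X (by omega) (by omega) k2)))))))
  by_cases k3 : X.n u v
  · exact holds_left (holds_left (holds_left (holds_left (holds_left (holds_right
      (h_pn X (by omega) (by omega) k3))))))
  by_cases k4 : X.a u w
  · exact holds_left (holds_left (holds_left (holds_left (holds_right
      (h_pa X (by omega) (by omega) k4)))))
  by_cases k5 : X.n u w
  · exact holds_left (holds_left (holds_left (holds_right
      (h_pn X (by omega) (by omega) k5))))
  by_cases k6 : i ≤ X.t u
  swap
  · exact holds_left (holds_left (holds_right (h_nt X hu k6)))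
  by_cases k7 : i' ≤ X.t v
  swap
  · exact holds_left (holds_right (h_nt X hv k7))
  refine holds_right (h_nt X hw ?_)
  have h := X.h_need u hu {v, w} (by
    intro y hy
    rw [mem_insert, mem_singleton] at hy
    rw [mem_range]
    rcases hy with rfl | rfl
    · exact hv
    · exact hw) (by
    rw [mem_insert, mem_singleton]
    rintro (h | h)
    · exact n1 h
    · exact n2 h) (by
    intro y hy
    rw [mem_insert, mem_singleton] at hy
    rcases hy with rfl | rfl
    · exact ⟨k2, k3⟩
    · exact ⟨k4, k5⟩)
  rw [sum_pair n3] at h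
  unfold Sys.nd at k1
  omega

theorem c24_snd (hT : T ≤ 14) (u j : ℕ) : holds X.sem (c24 T u j) := by
  refine holds_gd (fun h => ?_)
  simp only [Bool.and_eq_true] at h
  obtain ⟨h1, h2⟩ := h
  have hu := S3_l7 h1
  have hj := S3_ltb h2
  by_cases k1 : j ≤ X.nd u
  swap
  · exact holds_left (h_nnd X hu k1)
  refine holds_right (h_nt X hu ?_)
  have h := X.h_need u hu ∅ (empty_subset _) (notMem_empty _) (by simp)
  rw [sum_empty] at h
  unfold Sys.nd at k1
  omega

theorem S3_need {A A' C C' D : ℕ} (hA : A' ≤ A) (hC : C ≤ C') : need A C D ≤ need A' C' D := by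
  unfold need
  refine tsub_le_tsub (Nat.mul_le_mul_left D (by omega)) ?_
  exact Nat.add_le_add_right (Nat.mul_le_mul_left D (by omega)) _

theorem c25_snd (hm : mm ≤ 6) (hT : T ≤ 14) (u d av cc : ℕ) : holds X.sem (c25 mm T u d av cc) := by
  refine holds_gd (fun h => ?_)
  simp only [Bool.and_eq_true] at h
  obtain ⟨h1, h2⟩ := h
  have hu := S3_l7 h1
  by_cases k1 : d ≤ X.D u
  swap
  · exact holds_left (holds_left (holds_left (holds_left (h_nD X hu k1))))
  by_cases k2 : d + 1 ≤ X.D u
  · exact holds_left (holds_left (holds_left (holds_right (h_pD X (by omega) hu k2))))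
  by_cases k3 : av + 1 ≤ X.A u
  · exact holds_left (holds_left (holds_right (h_pA X hu k3)))
  by_cases k4 : cc ≤ X.C u
  swap
  · exact holds_left (holds_right (h_nC X hu k4))
  refine holds_right (h_pnd X (by omega) hu ?_)
  have k5 : X.D u = d := by omega
  unfold Sys.nd
  rw [k5]
  exact S3_need (by omega) k4

theorem c26_snd (hm : mm ≤ 6) (K0 : ℕ) (hK : K0 ≤ K) (u av : ℕ) : holds X.sem (c26 mm K0 u av) := by
  refine holds_gd (fun h => ?_)
  have hu := S3_l7 h
  by_cases k1 : mm ≤ X.D u
  swap
  · exact holds_left (holds_left (h_nD X hu k1))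
  by_cases k2 : av + 1 ≤ X.A u
  · exact holds_left (holds_right (h_pA X hu k2))
  refine holds_right (h_nC X hu ?_)
  have k3 := D_le X hu
  have k4 := X.h_full u hu (by omega)
  omega

theorem c27_snd (hm : mm ≤ 6) (u j : ℕ) : holds X.sem (c27 mm u j) := by
  refine holds_gd (fun h => ?_)
  simp only [Bool.and_eq_true] at h
  obtain ⟨h1, h2⟩ := h
  have hu := S3_l7 h1
  have hj := S3_ltb h2
  by_cases k1 : j ≤ X.z u
  swap
  · exact holds_left (h_nz X hu k1)
  refine holds_right (h_nD X hu ?_)
  have k3 := X.h_z1 u hu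
  omega

theorem c28_snd (hm : mm ≤ 6) (u v j : ℕ) : holds X.sem (c28 mm u v j) := by
  refine holds_gd (fun h => ?_)
  simp only [Bool.and_eq_true] at h
  obtain ⟨⟨h1, h2⟩, h3⟩ := h
  have hu := S3_l7 h1
  have hv := S3_l7 h2
  have hj := S3_ltb h3
  by_cases k1 : j ≤ X.z u
  swap
  · exact holds_left (holds_left (h_nz X hu k1))
  by_cases k2 : X.a u v
  swap
  · exact holds_left (holds_right (h_na X (by omega) (by omega) k2))
  refine holds_right (h_nD X hv ?_)
  have k3 := X.h_z2 u hu v hv k2
  omega

theorem c29_snd (hm : mm ≤ 6) (K0 : ℕ) (V : Bool) (hV : V = true → K = K0) (u d zz av : ℕ) : holds X.sem (c29 mm T K0 V u d zz av) := by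
  refine holds_gd (fun h => ?_)
  simp only [Bool.and_eq_true] at h
  obtain ⟨⟨⟨h1, h2⟩, h3⟩, h4⟩ := h
  have hK := hV h1
  subst hK
  have hu := S3_l7 h2
  have hd0 := S3_ltb h3
  have hd := S3_ltb h4
  by_cases k1 : d ≤ X.D u
  swap
  · exact holds_left (holds_left (holds_left (holds_left (h_nD X hu k1))))
  by_cases k2 : d + 1 ≤ X.D u
  · exact holds_left (holds_left (holds_left (holds_right (h_pD X (by omega) hu k2))))
  by_cases k3 : zz + 1 ≤ X.z u
  · exact holds_left (holds_left (holds_right (h_pz X (by omega) hu k3)))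
  by_cases k4 : av + 1 ≤ X.A u
  · exact holds_left (holds_right (h_pA X hu k4))
  refine holds_right (h_nC X hu ?_)
  have k5 : X.D u = d := by omega
  have k6 := X.h_F3 u hu (by omega)
  rw [k5] at k6
  obtain ⟨q, hq⟩ : ∃ q, q = min K ((mm * K + T + mm * (mm - 1) / 2 - 7 * mm) / d) := ⟨_, rfl⟩
  rw [← hq] at k6 ⊢
  omega

end Pool.Agent.H39.S7
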