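import Pool.Agent.H39.S7.SndBase
set_option autoImplicit false
set_option maxRecDepth 100000
namespace Pool.Agent.H39.S7
open Finset
open scoped Classical
attribute [local irreducible] taut gd
variable {mm T K al : ℕ} (X : Sys mm T K al)

theorem key_lex (hm : mm ≤ 6) (h2 : al ≤ 2) {u : ℕ} (hu : al < u) (hu7 : u + 1 < 7) :
    (X.a al (u+1) → X.a al u) ∧
    ((X.a al u ↔ X.a al (u+1)) → X.a 1 (u+1) → X.a 1 u) ∧
    ((X.a al u ↔ X.a al (u+1)) → (X.a 1 u ↔ X.a 1 (u+1)) → X.a u 0 → X.a (u+1) 0) ∧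
    ((X.a al u ↔ X.a al (u+1)) → (X.a 1 u ↔ X.a 1 (u+1)) → (X.a u 0 ↔ X.a (u+1) 0) →
      X.A u ≤ X.A (u+1) ∧ (X.A u = X.A (u+1) → X.D (u+1) ≤ X.D u ∧ (X.D u = X.D (u+1) → X.t u ≤ X.t (u+1)))) := by
  have hk := X.h_key u hu hu7
  have a1 := A_le X (show u < 7 by omega)
  have a2 := A_le X hu7
  have d1 := D_le X (show u < 7 by omega)
  have d2 := D_le X hu7
  have t1 := t_le X (show u < 7 by omega)
  have t2 := t_le X hu7
  unfold key at hk
  by_cases p1 : X.a al u <;> by_cases p2 : X.a al (u+1) <;> by_cases p3 : X.a 1 u <;> by_cases p4 : X.a 1 (u+1) <;>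
    by_cases p5 : X.a u 0 <;> by_cases p6 : X.a (u+1) 0 <;> simp only [p1, p2, p3, p4, p5, p6, if_true, if_false] at hk ⊢ <;>
    simp only [true_implies, false_implies, implies_true, iff_self, iff_true, iff_false, not_true, not_false_iff, and_true, true_and] <;> omega


private theorem l7_lt {u : ℕ} (h : l7 u = true) : u < 7 := by
  have := Nat.le_of_ble_eq_true h
  omega

private theorem ltb_lt {u v : ℕ} (h : ltb u v = true) : u < v := Nat.le_of_ble_eq_true h

theorem c30_snd (hm : mm ≤ 6) (h2 : al ≤ 2) (u : ℕ) : holds X.sem (c30 al u) := by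
  refine holds_gd (fun h => ?_)
  have hu := l7_lt h
  have h1 := X.h_min u hu
  have h3 := X.h_al
  have h4 := D_le X hu
  exact h_pA X hu (by omega)

theorem c31_snd (h2 : al ≤ 2) : holds X.sem (c31 al) := by
  unfold c31
  have h3 := X.h_al
  exact h_nA X (by omega) (by omega)

theorem c32_snd (hm : mm ≤ 6) (h2 : al ≤ 2) (u j : ℕ) : holds X.sem (c32 mm al u j) := by
  refine holds_gd (fun h => ?_)
  rw [Bool.and_eq_true] at h
  have hu := l7_lt h.1
  have h1 := X.h_min u hu
  have h3 := X.h_al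
  have h4 := D_le X hu
  by_cases a1 : al + 1 ≤ X.A u
  · exact holds_left (holds_left (h_pA X hu a1))
  · by_cases a2 : j ≤ X.D 0
    · exact holds_right (h_pD X (by omega) hu (by omega))
    · exact holds_left (holds_right (h_nD X (by omega) a2))

theorem c33_snd (v : ℕ) : holds X.sem (c33 al v) := by
  refine holds_gd (fun h => ?_)
  have hv := l7_lt h
  have hf := X.h_fix v hv
  cases hb : (Nat.ble 1 v && Nat.ble v al)
  · rw [cond_false]
    refine h_na X (by omega) (by omega) (fun h' => ?_)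
    obtain ⟨p1, p2⟩ := hf.1 h'
    rw [Nat.ble_eq_true_of_le p1, Nat.ble_eq_true_of_le p2] at hb
    exact absurd hb (by decide)
  · rw [cond_true]
    rw [Bool.and_eq_true] at hb
    exact h_pa X (by omega) (by omega) (hf.2 ⟨Nat.le_of_ble_eq_true hb.1, Nat.le_of_ble_eq_true hb.2⟩)

theorem c34_snd : holds X.sem (c34 al) := by
  refine holds_gd (fun h => ?_)
  exact h_na X (by omega) (by omega) (X.h_21 (Nat.eq_of_beq_eq_true h))

theorem pky_0 (u : ℕ) : pky al 0 u = pa al u := by
  unfold pky; rw [show Nat.beq 0 0 = true from rfl, cond_true]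
theorem pky_1 (u : ℕ) : pky al 1 u = pa 1 u := by
  unfold pky; rw [show Nat.beq 1 0 = false from rfl, show Nat.beq 1 1 = true from rfl, cond_true, cond_false]
theorem pky_2 (u : ℕ) : pky al 2 u = na u 0 := by
  unfold pky; rw [show Nat.beq 2 0 = false from rfl, show Nat.beq 2 1 = false from rfl, cond_false, cond_false]
theorem nky_0 (u : ℕ) : nky al 0 u = na al u := by
  unfold nky; rw [show Nat.beq 0 0 = true from rfl, cond_true]
theorem nky_1 (u : ℕ) : nky al 1 u = na 1 u := by
  unfold nky; rw [show Nat.beq 1 0 = false from rfl, show Nat.beq 1 1 = true from rfl, cond_true, cond_false]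
theorem nky_2 (u : ℕ) : nky al 2 u = pa u 0 := by
  unfold nky; rw [show Nat.beq 2 0 = false from rfl, show Nat.beq 2 1 = false from rfl, cond_false, cond_false]
theorem ky0 (u : ℕ) : X.ky 0 u ↔ X.a al u := by unfold Sys.ky; rw [if_pos rfl]
theorem ky1 (u : ℕ) : X.ky 1 u ↔ X.a 1 u := by unfold Sys.ky; rw [if_neg (by omega), if_pos rfl]
theorem ky2 (u : ℕ) : X.ky 2 u ↔ ¬ X.a u 0 := by unfold Sys.ky; rw [if_neg (by omega), if_neg (by omega)]

theorem h_pky (h2 : al ≤ 2) {i u : ℕ} (hi : i < 3) (hu : u < 8) (h : X.ky i u) : holds X.sem (pky al i u) := by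
  have h0 : i = 0 ∨ i = 1 ∨ i = 2 := by omega
  rcases h0 with rfl | rfl | rfl
  · rw [pky_0]; exact h_pa X (by omega) (by omega) ((ky0 X u).1 h)
  · rw [pky_1]; exact h_pa X (by omega) (by omega) ((ky1 X u).1 h)
  · rw [pky_2]; exact h_na X (by omega) (by omega) ((ky2 X u).1 h)

theorem h_nky (h2 : al ≤ 2) {i u : ℕ} (hi : i < 3) (hu : u < 8) (h : ¬ X.ky i u) : holds X.sem (nky al i u) := by
  have h0 : i = 0 ∨ i = 1 ∨ i = 2 := by omega
  rcases h0 with rfl | rfl | rfl
  · rw [nky_0]; exact h_na X (by omega) (by omega) (fun h' => h ((ky0 X u).2 h'))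
  · rw [nky_1]; exact h_na X (by omega) (by omega) (fun h' => h ((ky1 X u).2 h'))
  · rw [nky_2]
    refine h_pa X (by omega) (by omega) ?_
    by_contra h'
    exact h ((ky2 X u).2 h')

theorem pre_0 (u : ℕ) : pre 0 u = 0 := by unfold pre; rw [show Nat.beq 0 0 = true from rfl, cond_true]
theorem pre_1 (u : ℕ) : pre 1 u = nL 0 u := by unfold pre; rw [show Nat.beq 1 0 = false from rfl, cond_false]
theorem pre_2 (u : ℕ) : pre 2 u = nL 1 u := by unfold pre; rw [show Nat.beq 2 0 = false from rfl, cond_false]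

theorem h_pre {i u : ℕ} (hi : i < 3) (hu : u < 7) (h : ¬ (∀ i' < i, (X.ky i' u ↔ X.ky i' (u + 1)))) :
    holds X.sem (pre i u) := by
  have h0 : i = 0 ∨ i = 1 ∨ i = 2 := by omega
  rcases h0 with rfl | rfl | rfl
  · exact absurd (fun i' hi' => absurd hi' (by omega)) h
  · rw [pre_1]
    refine h_nL X (by omega) (by omega) (fun hL => h (fun i' hi' => hL i' (by omega)))
  · rw [pre_2]
    refine h_nL X (by omega) (by omega) (fun hL => h (fun i' hi' => hL i' (by omega)))

theorem c35_snd (hm : mm ≤ 6) (h1 : 1 ≤ al) (h2 : al ≤ 2) (i u : ℕ) : holds X.sem (c35 al i u) := by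
  refine holds_gd (fun h => ?_)
  rw [Bool.and_eq_true, Bool.and_eq_true] at h
  have hi := ltb_lt h.1.1
  have hu := ltb_lt h.1.2
  have hu7 := ltb_lt h.2
  obtain ⟨k0, k1, k2, -⟩ := key_lex X hm h2 hu hu7
  by_cases hp : ∀ i' < i, (X.ky i' u ↔ X.ky i' (u + 1))
  · by_cases p1 : X.ky i u
    · exact holds_left (holds_right (h_pky X h2 hi (by omega) p1))
    · refine holds_right (h_nky X h2 hi (by omega) (fun p2 => p1 ?_))
      have h0 : i = 0 ∨ i = 1 ∨ i = 2 := by omega
      rcases h0 with rfl | rfl | rfl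
      · rw [ky0] at p2 ⊢
        exact k0 p2
      · have e0 := hp 0 (by omega)
        rw [ky0, ky0] at e0
        rw [ky1] at p2 ⊢
        exact k1 e0 p2
      · have e0 := hp 0 (by omega)
        have e1 := hp 1 (by omega)
        rw [ky0, ky0] at e0
        rw [ky1, ky1] at e1
        rw [ky2] at p2 ⊢
        exact fun q => p2 (k2 e0 e1 q)
  · exact holds_left (holds_left (h_pre X hi (by omega) hp))

theorem c36_snd (h2 : al ≤ 2) (i u : ℕ) : holds X.sem (c36 al i u) := by
  refine holds_gd (fun h => ?_)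
  rw [Bool.and_eq_true] at h
  have hi := ltb_lt h.1
  have hu := ltb_lt h.2
  by_cases hp : ∀ i' < i, (X.ky i' u ↔ X.ky i' (u + 1))
  · by_cases p1 : X.ky i u
    · exact holds_left (holds_right (h_pky X h2 hi (by omega) p1))
    by_cases p2 : X.ky i (u + 1)
    · exact holds_right (h_pky X h2 hi (by omega) p2)
    refine holds_left (holds_left (holds_right (h_pL X (by omega) (by omega) ?_)))
    intro i' hi'
    rcases Nat.lt_or_eq_of_le hi' with h3 | rfl
    · exact hp i' h3
    · exact iff_of_false p1 p2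
  · exact holds_left (holds_left (holds_left (h_pre X hi (by omega) hp)))

theorem c37_snd (h2 : al ≤ 2) (i u : ℕ) : holds X.sem (c37 al i u) := by
  refine holds_gd (fun h => ?_)
  rw [Bool.and_eq_true] at h
  have hi := ltb_lt h.1
  have hu := ltb_lt h.2
  by_cases hp : ∀ i' < i, (X.ky i' u ↔ X.ky i' (u + 1))
  · by_cases p1 : X.ky i u
    · by_cases p2 : X.ky i (u + 1)
      · refine holds_left (holds_left (holds_right (h_pL X (by omega) (by omega) ?_)))
        intro i' hi'
        rcases Nat.lt_or_eq_of_le hi' with h3 | rfl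
        · exact hp i' h3
        · exact iff_of_true p1 p2
      · exact holds_right (h_nky X h2 hi (by omega) p2)
    · exact holds_left (holds_right (h_nky X h2 hi (by omega) p1))
  · exact holds_left (holds_left (holds_left (h_pre X hi (by omega) hp)))

theorem lex2 (hm : mm ≤ 6) (h2 : al ≤ 2) {u : ℕ} (hu : al < u) (hu7 : u + 1 < 7) (hL : X.L 2 u) :
    X.A u ≤ X.A (u+1) ∧ (X.A u = X.A (u+1) → X.D (u+1) ≤ X.D u ∧ (X.D u = X.D (u+1) → X.t u ≤ X.t (u+1))) := by
  obtain ⟨-, -, -, k3⟩ := key_lex X hm h2 hu hu7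
  have e0 := hL 0 (by omega)
  have e1 := hL 1 (by omega)
  have e2 := hL 2 (by omega)
  rw [ky0, ky0] at e0
  rw [ky1, ky1] at e1
  rw [ky2, ky2, not_iff_not] at e2
  exact k3 e0 e1 e2

theorem c38_snd (hm : mm ≤ 6) (h2 : al ≤ 2) (u j : ℕ) : holds X.sem (c38 al u j) := by
  refine holds_gd (fun h => ?_)
  rw [Bool.and_eq_true] at h
  have hu := ltb_lt h.1
  have hu7 := ltb_lt h.2
  by_cases hL : X.L 2 u
  · have h3 := (lex2 X hm h2 hu hu7 hL).1
    by_cases p1 : j ≤ X.A u
    · exact holds_right (h_pA X (by omega) (by omega))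
    · exact holds_left (holds_right (h_nA X (by omega) p1))
  · exact holds_left (holds_left (h_nL X (by omega) (by omega) hL))

theorem c39_snd (hm : mm ≤ 6) (h2 : al ≤ 2) (u j : ℕ) : holds X.sem (c39 al u j) := by
  refine holds_gd (fun h => ?_)
  rw [Bool.and_eq_true] at h
  have hu := ltb_lt h.1
  have hu7 := ltb_lt h.2
  by_cases hL : X.L 2 u
  · have h3 := (lex2 X hm h2 hu hu7 hL).1
    by_cases p1 : j ≤ X.A u
    · by_cases p2 : j + 1 ≤ X.A (u + 1)
      · exact holds_right (h_pA X (by omega) p2)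
      · exact holds_left (holds_left (holds_right (h_pe X (by omega) ⟨hL, by omega⟩)))
    · exact holds_left (holds_right (h_nA X (by omega) p1))
  · exact holds_left (holds_left (holds_left (h_nL X (by omega) (by omega) hL)))

theorem c40_snd (hm : mm ≤ 6) (h2 : al ≤ 2) (u j : ℕ) : holds X.sem (c40 mm al u j) := by
  refine holds_gd (fun h => ?_)
  rw [Bool.and_eq_true] at h
  have hu := ltb_lt h.1
  have hu7 := ltb_lt h.2
  by_cases he : X.e u
  · have h3 := ((lex2 X hm h2 hu hu7 he.1).2 he.2).1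
    by_cases p1 : j ≤ X.D (u + 1)
    · exact holds_left (holds_right (h_pD X (by omega) (by omega) (by omega)))
    · exact holds_right (h_nD X (by omega) p1)
  · exact holds_left (holds_left (h_ne X (by omega) he))

theorem c41_snd (hm : mm ≤ 6) (h2 : al ≤ 2) (u j : ℕ) : holds X.sem (c41 mm al u j) := by
  refine holds_gd (fun h => ?_)
  rw [Bool.and_eq_true] at h
  have hu := ltb_lt h.1
  have hu7 := ltb_lt h.2
  by_cases he : X.e u
  · have h3 := ((lex2 X hm h2 hu hu7 he.1).2 he.2).1
    by_cases p1 : j ≤ X.D (u + 1)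
    · by_cases p2 : j + 1 ≤ X.D u
      · exact holds_right (h_pD X (by omega) (by omega) p2)
      · exact holds_left (holds_left (holds_left (h_pf X (by omega) ⟨he, by omega⟩)))
    · exact holds_left (holds_right (h_nD X (by omega) p1))
  · exact holds_left (holds_left (holds_right (h_ne X (by omega) he)))

theorem c42_snd (hm : mm ≤ 6) (h2 : al ≤ 2) (u j : ℕ) : holds X.sem (c42 mm al u j) := by
  refine holds_gd (fun h => ?_)
  rw [Bool.and_eq_true] at h
  have hu := ltb_lt h.1
  have hu7 := ltb_lt h.2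
  by_cases hf : X.f u
  · have h3 := ((lex2 X hm h2 hu hu7 hf.1.1).2 hf.1.2).2 hf.2
    by_cases p1 : j ≤ X.t u
    · exact holds_right (h_pt X (by omega) (by omega) (by omega))
    · exact holds_left (holds_right (h_nt X (by omega) p1))
  · exact holds_left (holds_left (h_nf X (by omega) hf))

end Pool.Agent.H39.S7
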