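import Pool.Agent.H39.S7.SndBase

/-! Row S5. Truth of the clauses of group 5 (definitions in `Ax.lean`, variables and `Sys` in `Fam.lean`,
literals in `SndBase.lean`).
Pattern: `refine holds_gd (fun h => ?_)`, then `simp only [l7, ltb, neb, Bool.and_eq_true, ...] at h` (with `Nat.le_of_ble_eq_true`)
to get the ranges as inequalities; then `by_cases` on the semantic literals and `holds_left`/`holds_right`/`holds_or` with the
`h_..` lemmas of `SndBase.lean`. Every clause is an elementary consequence of the fields of `Sys` (by `omega` or counting):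
`c43`: if all `y` in `s` (`⊆ range mm`, as `s < 2 ^ mm`) have `b y v` then `cnt7 s ≤ t v` (`hb`). `c44`: if none has, `t v ≤ mm - cnt7 s`. `c45`: `hB`. `c46`: monotone.
`c47`-`c49`: `bs v y = bs v (y-1) + (if b y v then B y else 0)`, `bs v 0 = if b 0 v then B 0 else 0`. `c50`: `h_needb` (`bs v (mm-1)` is the whole sum).
`c51`-`c53`: `h_row` (unfold `rk`; the rows are in decreasing lexicographic order): `q y (v-1)` (the rows `y`, `y+1` agree below `v`) and `b (y+1) v` give `b y v`
(`interval_cases v`, `split_ifs`/digits 0,1, `omega`); `q y v ↔ q y (v-1) ∧ (b y v ↔ b (y+1) v)`.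
Do NOT unfold `taut` or let `exact`/`simp`/`decide` see through `gd`/`taut` (it contains `2 ^ 2048`): use `holds_gd`, and keep
`attribute [local irreducible] taut gd` at the top. -/

set_option autoImplicit false
set_option maxRecDepth 100000

namespace Pool.Agent.H39.S7

open Finset
open scoped Classical

attribute [local irreducible] taut gd

variable {mm T K al : ℕ} (X : Sys mm T K al)

/-- bits of a mask below `2 ^ mm` -/
theorem bit_lt_mm {s y : ℕ} (hs : s < 2 ^ mm) (h : Nat.testBit s y = true) : y < mm := by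
  by_contra hc
  have h1 : s < 2 ^ y := lt_of_lt_of_le hs (Nat.pow_le_pow_right (by norm_num) (by omega))
  rw [Nat.testBit_lt_two_pow h1] at h
  exact absurd h (by simp)

theorem mask_lt {s : ℕ} (hm : mm ≤ 6) (hs : s < 2 ^ mm) : s < 128 := by
  have h1 : 2 ^ mm ≤ 2 ^ 6 := Nat.pow_le_pow_right (by norm_num) hm
  have h2 : (2 : ℕ) ^ 6 = 64 := by norm_num
  omega

theorem bs_zero (v : ℕ) (h : X.b 0 v) : X.bs v 0 = X.B 0 := by
  unfold Sys.bs
  rw [zero_add, range_one, filter_singleton, if_pos h, sum_singleton]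

theorem bs_succ_pos (v y : ℕ) (h : X.b (y + 1) v) : X.bs v (y + 1) = X.bs v y + X.B (y + 1) := by
  unfold Sys.bs
  rw [range_add_one (n := y + 1), filter_insert, if_pos h, sum_insert (by simp), add_comm]

theorem bs_succ_le (v y : ℕ) : X.bs v y ≤ X.bs v (y + 1) := by
  unfold Sys.bs
  exact sum_le_sum_of_subset (filter_subset_filter _ (range_mono (by omega)))

theorem c43_snd (hm : mm ≤ 6) (v s : ℕ) : holds X.sem (c43 mm v s) := by
  refine holds_gd (fun h => ?_)
  rw [Bool.and_eq_true] at h
  have hv : v ≤ 6 := Nat.le_of_ble_eq_true h.1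
  have hs : s + 1 ≤ 2 ^ mm := Nat.le_of_ble_eq_true h.2
  have hs' : s < 2 ^ mm := hs
  by_cases hall : ∀ y < 7, Nat.testBit s y = true → X.b y v
  · refine holds_left (h_pt X (by omega) (by omega) ?_)
    rw [cnt7_eq s (mask_lt hm hs'), X.hb v (by omega)]
    refine card_le_card ?_
    intro y hy
    rw [mem_filter, mem_range] at hy ⊢
    exact ⟨bit_lt_mm hs' hy.2, hall y hy.1 hy.2⟩
  · push Not at hall
    obtain ⟨y, hy, hy1, hy2⟩ := hall
    exact holds_right (holds_sub7 ⟨y, hy, hy1, h_nb X (by omega) (by omega) hy2⟩)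

theorem c44_snd (hm : mm ≤ 6) (v s : ℕ) : holds X.sem (c44 mm v s) := by
  refine holds_gd (fun h => ?_)
  rw [Bool.and_eq_true] at h
  have hv : v ≤ 6 := Nat.le_of_ble_eq_true h.1
  have hs : s + 1 ≤ 2 ^ mm := Nat.le_of_ble_eq_true h.2
  have hs' : s < 2 ^ mm := hs
  by_cases hall : ∀ y < 7, Nat.testBit s y = true → ¬ X.b y v
  · refine holds_left (h_nt X (by omega) ?_)
    have h1 := cnt7_eq s (mask_lt hm hs')
    have h2 := X.hb v (by omega)
    have h3 : ((range 7).filter (fun v => Nat.testBit s v = true)).card +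
        ((range mm).filter (fun y => X.b y v)).card ≤ mm := by
      rw [← card_union_of_disjoint]
      · refine (card_le_card ?_).trans_eq (card_range mm)
        intro y hy
        rw [mem_union, mem_filter, mem_filter] at hy
        rcases hy with hy | hy
        · exact mem_range.2 (bit_lt_mm hs' hy.2)
        · exact hy.1
      · rw [Finset.disjoint_left]
        intro y hy hy'
        rw [mem_filter, mem_range] at hy
        rw [mem_filter] at hy'
        exact hall y hy.1 hy.2 hy'.2
    omega
  · push Not at hall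
    obtain ⟨y, hy, hy1, hy2⟩ := hall
    exact holds_right (holds_sub7 ⟨y, hy, hy1, h_pb X (by omega) (by omega) hy2⟩)

theorem c45_snd (hm : mm ≤ 6) (y s : ℕ) : holds X.sem (c45 mm y s) := by
  refine holds_gd (fun h => ?_)
  rw [Bool.and_eq_true] at h
  have hy : y + 1 ≤ mm := Nat.le_of_ble_eq_true h.1
  have hs : s + 1 ≤ 128 := Nat.le_of_ble_eq_true h.2
  by_cases hall : ∀ v < 7, Nat.testBit s v = true → X.b y v
  · refine holds_left (h_pB X (by omega) (by omega) ?_)
    rw [cnt7_eq s (by omega), X.hB y (by omega)]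
    refine card_le_card ?_
    intro v hv
    rw [mem_filter, mem_range] at hv ⊢
    exact ⟨hv.1, hall v hv.1 hv.2⟩
  · push Not at hall
    obtain ⟨v, hv, hv1, hv2⟩ := hall
    exact holds_right (holds_sub7 ⟨v, hv, hv1, h_nb X (by omega) (by omega) hv2⟩)

theorem c46_snd (hm : mm ≤ 6) (y j : ℕ) : holds X.sem (c46 mm y j) := by
  refine holds_gd (fun h => ?_)
  rw [Bool.and_eq_true] at h
  have hy : y + 1 ≤ mm := Nat.le_of_ble_eq_true h.1
  by_cases hj : j + 1 ≤ X.B y
  · exact holds_right (h_pB X (by omega) (by omega) (by omega))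
  · exact holds_left (h_nB X (by omega) (by omega) hj)

theorem c47_snd (hm : mm ≤ 6) (hT : T ≤ 14) (v y i j : ℕ) : holds X.sem (c47 mm T v y i j) := by
  refine holds_gd (fun h => ?_)
  rw [Bool.and_eq_true, Bool.and_eq_true] at h
  have hv : v ≤ 6 := Nat.le_of_ble_eq_true h.1.1
  have hy0 : 0 + 1 ≤ y := Nat.le_of_ble_eq_true h.1.2
  have hy : y + 1 ≤ mm := Nat.le_of_ble_eq_true h.2
  obtain ⟨y, rfl⟩ : ∃ k, y = k + 1 := ⟨y - 1, by omega⟩
  have e : y + 1 - 1 = y := by omega
  rw [e]
  by_cases hb : X.b (y + 1) v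
  · by_cases hi : i ≤ X.bs v y
    · by_cases hj : j ≤ X.B (y + 1)
      · refine holds_left (holds_left (holds_left (h_pbs X (by omega) (by omega) (by omega) (by omega) ?_)))
        rw [bs_succ_pos X v y hb]
        omega
      · exact holds_right (h_nB X (by omega) (by omega) hj)
    · exact holds_left (holds_left (holds_right (h_nbs X (by omega) (by omega) (by omega) hi)))
  · exact holds_left (holds_right (h_nb X (by omega) (by omega) hb))

theorem c48_snd (hm : mm ≤ 6) (hT : T ≤ 14) (v y i : ℕ) : holds X.sem (c48 mm T v y i) := by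
  refine holds_gd (fun h => ?_)
  rw [Bool.and_eq_true, Bool.and_eq_true] at h
  have hv : v ≤ 6 := Nat.le_of_ble_eq_true h.1.1
  have hy0 : 0 + 1 ≤ y := Nat.le_of_ble_eq_true h.1.2
  have hy : y + 1 ≤ mm := Nat.le_of_ble_eq_true h.2
  obtain ⟨y, rfl⟩ : ∃ k, y = k + 1 := ⟨y - 1, by omega⟩
  have e : y + 1 - 1 = y := by omega
  rw [e]
  by_cases hi : i ≤ X.bs v y
  · exact holds_left (h_pbs X (by omega) (by omega) (by omega) (by omega) (hi.trans (bs_succ_le X v y)))
  · exact holds_right (h_nbs X (by omega) (by omega) (by omega) hi)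

theorem c49_snd (hm1 : 1 ≤ mm) (hm : mm ≤ 6) (hT : T ≤ 14) (v j : ℕ) : holds X.sem (c49 T v j) := by
  refine holds_gd (fun h => ?_)
  have hv : v ≤ 6 := Nat.le_of_ble_eq_true h
  by_cases hb : X.b 0 v
  · by_cases hj : j ≤ X.B 0
    · refine holds_left (holds_left (h_pbs X (by omega) (by omega) (by omega) (by omega) ?_))
      rw [bs_zero X v hb]
      exact hj
    · exact holds_right (h_nB X (by omega) (by omega) hj)
  · exact holds_left (holds_right (h_nb X (by omega) (by omega) hb))

theorem c50_snd (hm1 : 1 ≤ mm) (hm : mm ≤ 6) (hT : T ≤ 14) (v j : ℕ) : holds X.sem (c50 mm T v j) := by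
  refine holds_gd (fun h => ?_)
  rw [Bool.and_eq_true] at h
  have hv : v ≤ 6 := Nat.le_of_ble_eq_true h.1
  have hj : j + 1 ≤ T + 1 := Nat.le_of_ble_eq_true h.2
  by_cases hn : j ≤ X.nd v
  · refine holds_right (h_nbs X (by omega) (by omega) (by omega) ?_)
    have h1 := X.h_needb v (by omega)
    have h2 : X.bs v (mm - 1) = ∑ y ∈ (range mm).filter (fun y => X.b y v), X.B y := by
      unfold Sys.bs
      rw [show mm - 1 + 1 = mm by omega]
    unfold Sys.nd at hn
    omega
  · exact holds_left (h_nnd X (by omega) hn)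

/-- the digit of `y` at `v` -/
noncomputable def dg (y v : ℕ) : ℕ := if X.b y v then 1 else 0

theorem dg_le (y v : ℕ) : dg X y v ≤ 1 := by
  unfold dg
  split_ifs <;> omega

theorem dg_eq {y v : ℕ} (h : X.b y v ↔ X.b (y + 1) v) : dg X y v = dg X (y + 1) v := by
  unfold dg
  simp only [h]

/-- the rows are in decreasing order: with equal digits before `v`, a digit `1` at `v` in row `y + 1` is one in row `y` -/
theorem row_step {y v : ℕ} (hy : y + 1 < mm) (hv : v ≤ 6) (hq : v = 0 ∨ X.q y (v - 1)) (h : X.b (y + 1) v) :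
    X.b y v := by
  by_contra hc
  have h1 : 64 * dg X (y + 1) 0 + 32 * dg X (y + 1) 1 + 16 * dg X (y + 1) 2 + 8 * dg X (y + 1) 3
      + 4 * dg X (y + 1) 4 + 2 * dg X (y + 1) 5 + dg X (y + 1) 6
      ≤ 64 * dg X y 0 + 32 * dg X y 1 + 16 * dg X y 2 + 8 * dg X y 3 + 4 * dg X y 4 + 2 * dg X y 5 + dg X y 6 :=
    X.h_row y hy
  have he : ∀ v' < v, dg X y v' = dg X (y + 1) v' := by
    intro v' hv'
    rcases hq with h0 | h0
    · omega
    · exact dg_eq X (h0 v' (by omega))
  have h2 : dg X y v = 0 := if_neg hc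
  have h3 : dg X (y + 1) v = 1 := if_pos h
  have a1 := dg_le X y 1
  have a2 := dg_le X y 2
  have a3 := dg_le X y 3
  have a4 := dg_le X y 4
  have a5 := dg_le X y 5
  have a6 := dg_le X y 6
  have hv7 : v = 0 ∨ v = 1 ∨ v = 2 ∨ v = 3 ∨ v = 4 ∨ v = 5 ∨ v = 6 := by omega
  rcases hv7 with rfl | rfl | rfl | rfl | rfl | rfl | rfl
  · omega
  · have e0 := he 0 (by omega)
    omega
  · have e0 := he 0 (by omega)
    have e1 := he 1 (by omega)
    omega
  · have e0 := he 0 (by omega)
    have e1 := he 1 (by omega)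
    have e2 := he 2 (by omega)
    omega
  · have e0 := he 0 (by omega)
    have e1 := he 1 (by omega)
    have e2 := he 2 (by omega)
    have e3 := he 3 (by omega)
    omega
  · have e0 := he 0 (by omega)
    have e1 := he 1 (by omega)
    have e2 := he 2 (by omega)
    have e3 := he 3 (by omega)
    have e4 := he 4 (by omega)
    omega
  · have e0 := he 0 (by omega)
    have e1 := he 1 (by omega)
    have e2 := he 2 (by omega)
    have e3 := he 3 (by omega)
    have e4 := he 4 (by omega)
    have e5 := he 5 (by omega)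
    omega

theorem q_step {y v : ℕ} (hq : v = 0 ∨ X.q y (v - 1)) (h : X.b y v ↔ X.b (y + 1) v) : X.q y v := by
  intro v' hv'
  rcases eq_or_ne v' v with rfl | hne
  · exact h
  · rcases hq with h0 | h0
    · omega
    · exact h0 v' (by omega)

/-- either the digits before `v` agree, or the literal `preq` is true -/
theorem preq_or {y v : ℕ} (hy : y < 8) (hv : v ≤ 6) : (v = 0 ∨ X.q y (v - 1)) ∨ holds X.sem (preq y v) := by
  by_cases h0 : v = 0
  · exact Or.inl (Or.inl h0)
  · by_cases hq : X.q y (v - 1)
    · exact Or.inl (Or.inr hq)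
    · right
      unfold preq
      have h1 : Nat.beq v 0 = false := by
        cases h2 : Nat.beq v 0
        · rfl
        · exact absurd (Nat.eq_of_beq_eq_true h2) h0
      rw [h1, cond_false]
      exact h_nq X hy (by omega) hq

theorem c51_snd (hm : mm ≤ 6) (y v : ℕ) : holds X.sem (c51 mm y v) := by
  refine holds_gd (fun h => ?_)
  rw [Bool.and_eq_true] at h
  have hv : v ≤ 6 := Nat.le_of_ble_eq_true h.1
  have hy : y + 1 + 1 ≤ mm := Nat.le_of_ble_eq_true h.2
  rcases preq_or X (y := y) (v := v) (by omega) hv with hq | hq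
  · by_cases hb : X.b (y + 1) v
    · exact holds_left (holds_right (h_pb X (by omega) (by omega) (row_step X (by omega) hv hq hb)))
    · exact holds_right (h_nb X (by omega) (by omega) hb)
  · exact holds_left (holds_left hq)

theorem c52_snd (hm : mm ≤ 6) (y v : ℕ) : holds X.sem (c52 mm y v) := by
  refine holds_gd (fun h => ?_)
  rw [Bool.and_eq_true] at h
  have hv : v ≤ 6 := Nat.le_of_ble_eq_true h.1
  have hy : y + 1 + 1 ≤ mm := Nat.le_of_ble_eq_true h.2
  rcases preq_or X (y := y) (v := v) (by omega) hv with hq | hq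
  · by_cases hb : X.b (y + 1) v
    · by_cases hb' : X.b y v
      · exact holds_left (holds_left (holds_right (h_pq X (by omega) (by omega)
          (q_step X hq ⟨fun _ => hb, fun _ => hb'⟩))))
      · exact holds_left (holds_right (h_nb X (by omega) (by omega) hb'))
    · exact holds_right (h_nb X (by omega) (by omega) hb)
  · exact holds_left (holds_left (holds_left hq))

theorem c53_snd (hm : mm ≤ 6) (y v : ℕ) : holds X.sem (c53 mm y v) := by
  refine holds_gd (fun h => ?_)
  rw [Bool.and_eq_true] at h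
  have hv : v ≤ 6 := Nat.le_of_ble_eq_true h.1
  have hy : y + 1 + 1 ≤ mm := Nat.le_of_ble_eq_true h.2
  rcases preq_or X (y := y) (v := v) (by omega) hv with hq | hq
  · by_cases hb : X.b (y + 1) v
    · exact holds_right (h_pb X (by omega) (by omega) hb)
    · by_cases hb' : X.b y v
      · exact holds_left (holds_right (h_pb X (by omega) (by omega) hb'))
      · exact holds_left (holds_left (holds_right (h_pq X (by omega) (by omega)
          (q_step X hq ⟨fun h' => absurd h' hb', fun h' => absurd h' hb⟩))))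
  · exact holds_left (holds_left (holds_left hq))

end Pool.Agent.H39.S7
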