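import Pool.Agent.H39.S7.Snd1
import Pool.Agent.H39.S7.Snd2
import Pool.Agent.H39.S7.Snd3
import Pool.Agent.H39.S7.Snd4
import Pool.Agent.H39.S7.Snd5

set_option autoImplicit false
set_option maxRecDepth 100000

namespace Pool.Agent.H39.S7

attribute [local irreducible] taut gd

variable {mm T K al : ℕ} (X : Sys mm T K al)

theorem axA_snd (hm : mm ≤ 6) (hT : T ≤ 14) (f u v w i j : ℕ) : holds X.sem (axA mm T f u v w i j) := by
  unfold axA
  split
  · exact c0_snd X _ _
  · exact c1_snd X _ _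
  · exact c2_snd X _ _
  · exact c3_snd X _ _
  · exact c4_snd X _ _
  · exact c5_snd X _ _
  · exact c6_snd X hm _ _
  · exact c7_snd X hm _ _
  · exact c8_snd X hm _ _
  · exact c9_snd X hT _ _
  · exact c10_snd X hm _
  · exact c11_snd X _
  · exact c12_snd X hm _ _
  · exact c13_snd X hm _ _
  · exact c14_snd X _ _ _
  · exact c15_snd X hm _ _ _
  · exact holds_taut' _

theorem axB_snd (hm : mm ≤ 6) (hT : T ≤ 14) (h2 : al ≤ 2) (K0 : ℕ) (hK : K0 ≤ K) (V : Bool)
    (hV : V = true → K = K0) (f u v w i j : ℕ) : holds X.sem (axB mm T K0 al V f u v w i j) := by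
  unfold axB
  split
  · exact c16_snd X _ _
  · exact c17_snd X hT _ _ _
  · exact c18_snd X hT _
  · exact c19_snd X hm hT _ _ _
  · exact c20_snd X hm hT _
  · exact c21_snd X hT
  · exact c22_snd X hT _ _ _ _
  · exact c23_snd X hT _ _ _ _ _ _
  · exact c24_snd X hT _ _
  · exact c25_snd X hm hT _ _ _ _
  · exact c26_snd X hm K0 hK _ _
  · exact c27_snd X hm _ _
  · exact c28_snd X hm _ _ _
  · exact c29_snd X hm K0 V hV _ _ _ _
  · exact c30_snd X hm h2 _
  · exact c31_snd X h2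
  · exact holds_taut' _

theorem axC_snd (hm : mm ≤ 6) (h1 : 1 ≤ al) (h2 : al ≤ 2) (f u v i j : ℕ) :
    holds X.sem (axC mm al f u v i j) := by
  unfold axC
  split
  · exact c32_snd X hm h2 _ _
  · exact c33_snd X _
  · exact c34_snd X
  · exact c35_snd X hm h1 h2 _ _
  · exact c36_snd X h2 _ _
  · exact c37_snd X h2 _ _
  · exact c38_snd X hm h2 _ _
  · exact c39_snd X hm h2 _ _
  · exact c40_snd X hm h2 _ _
  · exact c41_snd X hm h2 _ _
  · exact c42_snd X hm h2 _ _
  · exact holds_taut' _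

theorem axD_snd (hm1 : 1 ≤ mm) (hm : mm ≤ 6) (hT : T ≤ 14) (f u v i j : ℕ) :
    holds X.sem (axD mm T f u v i j) := by
  unfold axD
  split
  · exact c43_snd X hm _ _
  · exact c44_snd X hm _ _
  · exact c45_snd X hm _ _
  · exact c46_snd X hm _ _
  · exact c47_snd X hm hT _ _ _ _
  · exact c48_snd X hm hT _ _ _
  · exact c49_snd X hm1 hm hT _ _
  · exact c50_snd X hm1 hm hT _ _
  · exact c51_snd X hm _ _
  · exact c52_snd X hm _ _
  · exact c53_snd X hm _ _
  · exact holds_taut' _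

theorem ax'_snd (hm1 : 1 ≤ mm) (hm : mm ≤ 6) (hT : T ≤ 14) (h1 : 1 ≤ al) (h2 : al ≤ 2) (K0 : ℕ)
    (hK : K0 ≤ K) (V : Bool) (hV : V = true → K = K0) (h f u v w i j : ℕ) :
    holds X.sem (ax' mm T K0 al V h f u v w i j) := by
  unfold ax'
  split
  · exact axA_snd X hm hT _ _ _ _ _ _
  · exact axB_snd X hm hT h2 K0 hK V hV _ _ _ _ _ _
  · exact axC_snd X hm h1 h2 _ _ _ _ _
  · exact axD_snd X hm1 hm hT _ _ _ _ _
  · exact holds_taut' _

/-- A successful run refutes the system. -/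
theorem run_false (X : Sys mm T K al) (hm1 : 1 ≤ mm) (hm : mm ≤ 6) (hT : T ≤ 14) (h1 : 1 ≤ al)
    (h2 : al ≤ 2) (K0 : ℕ) (hK : K0 ≤ K) (V : Bool) (hV : V = true → K = K0) (chunks : List ℕ) (h : ℕ)
    (hr : run (ax mm T K0 al V) chunks h = true) : False :=
  run_sound X.sem _ (fun g => by
    unfold ax
    exact ax'_snd X hm1 hm hT h1 h2 K0 hK V hV _ _ _ _ _ _ _) chunks h hr

end Pool.Agent.H39.S7
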