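import Pool.Agent.H39.S7.SndBase

/-! Row S1. Truth of the clauses of group 1 (definitions in `Ax.lean`, variables and `Sys` in `Fam.lean`,
literals in `SndBase.lean`).
Pattern: `refine holds_gd (fun h => ?_)`, then `simp only [l7, ltb, neb, Bool.and_eq_true, ...] at h` (with `Nat.le_of_ble_eq_true`)
to get the ranges as inequalities; then `by_cases` on the semantic literals and `holds_left`/`holds_right`/`holds_or` with the
`h_..` lemmas of `SndBase.lean`. Every clause is an elementary consequence of the fields of `Sys` (by `omega` or counting):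
`c0`: `h_or`. `c1`: if all `v` in the subset `s` have `a u v` then `cnt7 s ≤ A u` (`cnt7_eq`, `hA`). `c2` the same for `n`, `C`.
`c3`: if no `v` in `s` has `a u v` (and `u ∉ s`, `a u u` is false) then `A u ≤ 6 - cnt7 s`, so `¬ 7 - cnt7 s ≤ A u`. `c4`-`c9`: monotone.
Do NOT unfold `taut` or let `exact`/`simp`/`decide` see through `gd`/`taut` (it contains `2 ^ 2048`): use `holds_gd`, and keep
`attribute [local irreducible] taut gd` at the top. -/

set_option autoImplicit false
set_option maxRecDepth 100000

namespace Pool.Agent.H39.S7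

open Finset
open scoped Classical

attribute [local irreducible] taut gd

variable {mm T K al : ℕ} (X : Sys mm T K al)

theorem s1_l7 {u : ℕ} (h : l7 u = true) : u < 7 := by
  have := Nat.le_of_ble_eq_true h
  omega

theorem s1_ltb {u v : ℕ} (h : ltb u v = true) : u < v := by
  have := Nat.le_of_ble_eq_true h
  omega

theorem s1_and {a b : Bool} (h : (a && b) = true) : a = true ∧ b = true := by
  rwa [Bool.and_eq_true] at h

theorem c0_snd (u v : ℕ) : holds X.sem (c0 u v) := by
  refine holds_gd (fun h => ?_)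
  have h1 := s1_l7 (s1_and h).1
  have h2 := s1_l7 (s1_and h).2
  by_cases h3 : X.a u v
  · exact holds_right (h_na X (by omega) (by omega) (X.h_or u h1 v h2 h3))
  · exact holds_left (h_na X (by omega) (by omega) h3)

theorem c1_snd (u s : ℕ) : holds X.sem (c1 u s) := by
  refine holds_gd (fun h => ?_)
  have h1 := s1_l7 (s1_and h).1
  have h2 := s1_ltb (s1_and h).2
  by_cases h3 : ∃ v < 7, Nat.testBit s v = true ∧ ¬ X.a u v
  · obtain ⟨v, hv, h4, h5⟩ := h3
    exact holds_right (holds_sub7 ⟨v, hv, h4, h_na X (by omega) (by omega) h5⟩)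
  · refine holds_left (h_pA X h1 ?_)
    rw [cnt7_eq s h2, X.hA u h1]
    refine card_le_card ?_
    intro v hv
    rw [mem_filter, mem_range] at hv ⊢
    refine ⟨hv.1, ?_⟩
    by_contra h5
    exact h3 ⟨v, hv.1, hv.2, h5⟩

theorem c2_snd (u s : ℕ) : holds X.sem (c2 u s) := by
  refine holds_gd (fun h => ?_)
  have h1 := s1_l7 (s1_and h).1
  have h2 := s1_ltb (s1_and h).2
  by_cases h3 : ∃ v < 7, Nat.testBit s v = true ∧ ¬ X.n u v
  · obtain ⟨v, hv, h4, h5⟩ := h3
    exact holds_right (holds_sub7 ⟨v, hv, h4, h_nn X (by omega) (by omega) h5⟩)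
  · refine holds_left (h_pC X h1 ?_)
    rw [cnt7_eq s h2, X.hC u h1]
    refine card_le_card ?_
    intro v hv
    rw [mem_filter, mem_range] at hv ⊢
    refine ⟨hv.1, ?_⟩
    by_contra h5
    exact h3 ⟨v, hv.1, hv.2, h5⟩

theorem c3_snd (u s : ℕ) : holds X.sem (c3 u s) := by
  refine holds_gd (fun h => ?_)
  have h1 := s1_l7 (s1_and (s1_and h).1).1
  have h2 := s1_ltb (s1_and (s1_and h).1).2
  have h0 : Nat.testBit s u = false := by
    have := (s1_and h).2
    rwa [Bool.not_eq_true'] at this
  by_cases h3 : ∃ v < 7, Nat.testBit s v = true ∧ X.a u v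
  · obtain ⟨v, hv, h4, h5⟩ := h3
    exact holds_right (holds_sub7 ⟨v, hv, h4, h_pa X (by omega) (by omega) h5⟩)
  · refine holds_left (h_nA X h1 ?_)
    rw [cnt7_eq s h2, X.hA u h1]
    have hdis : Disjoint ((range 7).filter (fun v => X.a u v))
        ((range 7).filter (fun v => Nat.testBit s v = true)) := by
      rw [Finset.disjoint_left]
      intro v hv hv'
      rw [mem_filter, mem_range] at hv hv'
      exact h3 ⟨v, hv.1, hv'.2, hv.2⟩
    have hsub : ((range 7).filter (fun v => X.a u v)) ∪
        ((range 7).filter (fun v => Nat.testBit s v = true)) ⊆ (range 7).erase u := by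
      intro v hv
      rw [mem_union, mem_filter, mem_filter, mem_range] at hv
      rw [mem_erase, mem_range]
      rcases hv with hv | hv
      · refine ⟨?_, hv.1⟩
        rintro rfl
        exact X.h_or v h1 v h1 hv.2 hv.2
      · refine ⟨?_, hv.1⟩
        rintro rfl
        rw [h0] at hv
        exact Bool.noConfusion hv.2
    have hc := card_le_card hsub
    rw [card_union_of_disjoint hdis, card_erase_of_mem (mem_range.2 h1), card_range] at hc
    omega

theorem c4_snd (u j : ℕ) : holds X.sem (c4 u j) := by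
  refine holds_gd (fun h => ?_)
  have h1 := s1_l7 (s1_and h).1
  by_cases h3 : j + 1 ≤ X.A u
  · exact holds_right (h_pA X h1 (by omega))
  · exact holds_left (h_nA X h1 h3)

theorem c5_snd (u j : ℕ) : holds X.sem (c5 u j) := by
  refine holds_gd (fun h => ?_)
  have h1 := s1_l7 (s1_and h).1
  by_cases h3 : j + 1 ≤ X.C u
  · exact holds_right (h_pC X h1 (by omega))
  · exact holds_left (h_nC X h1 h3)

theorem c6_snd (hm : mm ≤ 6) (u j : ℕ) : holds X.sem (c6 mm u j) := by
  refine holds_gd (fun h => ?_)
  have h1 := s1_l7 (s1_and h).1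
  by_cases h3 : j + 1 ≤ X.D u
  · exact holds_right (h_pD X (by omega) h1 (by omega))
  · exact holds_left (h_nD X h1 h3)

theorem c7_snd (hm : mm ≤ 6) (u j : ℕ) : holds X.sem (c7 mm u j) := by
  refine holds_gd (fun h => ?_)
  have h1 := s1_l7 (s1_and h).1
  by_cases h3 : j + 1 ≤ X.t u
  · exact holds_right (h_pt X (by omega) h1 (by omega))
  · exact holds_left (h_nt X h1 h3)

theorem c8_snd (hm : mm ≤ 6) (u j : ℕ) : holds X.sem (c8 mm u j) := by
  refine holds_gd (fun h => ?_)
  have h1 := s1_l7 (s1_and h).1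
  by_cases h3 : j + 1 ≤ X.z u
  · exact holds_right (h_pz X (by omega) h1 (by omega))
  · exact holds_left (h_nz X h1 h3)

theorem c9_snd (hT : T ≤ 14) (u j : ℕ) : holds X.sem (c9 T u j) := by
  refine holds_gd (fun h => ?_)
  have h1 := s1_l7 (s1_and h).1
  by_cases h3 : j + 1 ≤ X.nd u
  · exact holds_right (h_pnd X (by omega) h1 (by omega))
  · exact holds_left (h_nnd X h1 h3)

end Pool.Agent.H39.S7
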