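import Pool.Agent.H39.S7.Ax

set_option autoImplicit false
set_option maxRecDepth 100000

namespace Pool.Agent.H39.S7

open Finset
open scoped Classical

/-! Base lemmas for the truth of the axiom clauses. -/

theorem holds_left {σ : ℕ → Prop} {a b : ℕ} (h : holds σ a) : holds σ (a ||| b) := by
  obtain ⟨i, h1, h2, h3⟩ := h
  exact ⟨i, by rw [Nat.testBit_or, h1]; rfl, h2, h3⟩

theorem holds_right {σ : ℕ → Prop} {a b : ℕ} (h : holds σ b) : holds σ (a ||| b) := by
  obtain ⟨i, h1, h2, h3⟩ := h
  exact ⟨i, by rw [Nat.testBit_or, h1, Bool.or_true], h2, h3⟩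

theorem holds_or {σ : ℕ → Prop} {a b : ℕ} (h : holds σ a ∨ holds σ b) : holds σ (a ||| b) :=
  h.elim holds_left holds_right

theorem holds_taut' (σ : ℕ → Prop) : holds σ taut := by
  unfold taut
  exact holds_taut σ

theorem gd_false (c : ℕ) : gd false c = taut := by
  unfold gd
  rw [cond_false]

theorem gd_true (c : ℕ) : gd true c = c := by
  unfold gd
  rw [cond_true]

theorem holds_gd {σ : ℕ → Prop} {b : Bool} {c : ℕ} (h : b = true → holds σ c) : holds σ (gd b c) := by
  cases b
  · rw [gd_false]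
    exact holds_taut' σ
  · rw [gd_true]
    exact h rfl

attribute [local irreducible] taut gd

theorem testBit_shl (c i : ℕ) : Nat.testBit (Nat.shiftLeft (nat_lit 1) c) i = decide (c = i) := by
  have h1 : Nat.shiftLeft (nat_lit 1) c = 2 ^ c := Nat.one_shiftLeft c
  rw [h1, Nat.testBit_two_pow]

theorem holds_lp {σ : ℕ → Prop} {c : ℕ} (hc : c < 2048) (h : σ c) : holds σ (lp c) := by
  refine ⟨c, ?_, by omega, ?_⟩
  · unfold lp
    rw [testBit_shl]
    simp
  · unfold tr
    rw [if_pos hc]
    exact h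

theorem holds_ln {σ : ℕ → Prop} {c : ℕ} (hc : c < 2048) (h : ¬ σ c) : holds σ (ln c) := by
  refine ⟨c + 2048, ?_, by omega, ?_⟩
  · unfold ln
    rw [testBit_shl]
    simp
  · unfold tr
    rw [if_neg (by omega)]
    have : c + 2048 - 2048 = c := by omega
    rw [this]
    exact h

variable {mm T K al : ℕ} (X : Sys mm T K al)

/-! the meaning of the variables -/

theorem sem_a {u v : ℕ} (hu : u < 8) (hv : v < 8) : X.sem (8 * u + v) ↔ X.a u v := by
  unfold Sys.sem
  rw [if_pos (by omega), show (8 * u + v) / 8 = u by omega, show (8 * u + v) % 8 = v by omega]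

theorem sem_n {u v : ℕ} (hu : u < 8) (hv : v < 8) : X.sem (64 + 8 * u + v) ↔ X.n u v := by
  unfold Sys.sem
  rw [if_neg (by omega), if_pos (by omega), show (64 + 8 * u + v - 64) / 8 = u by omega,
    show (64 + 8 * u + v) % 8 = v by omega]

theorem sem_A {u j : ℕ} (hu : u < 8) (hj : j < 8) : X.sem (128 + 8 * u + j) ↔ j ≤ X.A u := by
  unfold Sys.sem
  rw [if_neg (by omega), if_neg (by omega), if_pos (by omega),
    show (128 + 8 * u + j - 128) / 8 = u by omega, show (128 + 8 * u + j) % 8 = j by omega]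

theorem sem_C {u j : ℕ} (hu : u < 8) (hj : j < 8) : X.sem (192 + 8 * u + j) ↔ j ≤ X.C u := by
  unfold Sys.sem
  rw [if_neg (by omega), if_neg (by omega), if_neg (by omega), if_pos (by omega),
    show (192 + 8 * u + j - 192) / 8 = u by omega, show (192 + 8 * u + j) % 8 = j by omega]

theorem sem_D {u j : ℕ} (hu : u < 8) (hj : j < 8) : X.sem (256 + 8 * u + j) ↔ j ≤ X.D u := by
  unfold Sys.sem
  rw [if_neg (by omega), if_neg (by omega), if_neg (by omega), if_neg (by omega), if_pos (by omega),
    show (256 + 8 * u + j - 256) / 8 = u by omega, show (256 + 8 * u + j) % 8 = j by omega]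

theorem sem_t {u j : ℕ} (hu : u < 8) (hj : j < 8) : X.sem (320 + 8 * u + j) ↔ j ≤ X.t u := by
  unfold Sys.sem
  rw [if_neg (by omega), if_neg (by omega), if_neg (by omega), if_neg (by omega), if_neg (by omega),
    if_pos (by omega),
    show (320 + 8 * u + j - 320) / 8 = u by omega, show (320 + 8 * u + j) % 8 = j by omega]

theorem sem_z {u j : ℕ} (hu : u < 8) (hj : j < 8) : X.sem (384 + 8 * u + j) ↔ j ≤ X.z u := by
  unfold Sys.sem
  rw [if_neg (by omega), if_neg (by omega), if_neg (by omega), if_neg (by omega), if_neg (by omega),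
    if_neg (by omega), if_pos (by omega),
    show (384 + 8 * u + j - 384) / 8 = u by omega, show (384 + 8 * u + j) % 8 = j by omega]

theorem sem_e {u : ℕ} (hu : u < 8) : X.sem (448 + u) ↔ X.e u := by
  unfold Sys.sem
  rw [if_neg (by omega), if_neg (by omega), if_neg (by omega), if_neg (by omega), if_neg (by omega),
    if_neg (by omega), if_neg (by omega), if_pos (by omega), show 448 + u - 448 = u by omega]

theorem sem_f {u : ℕ} (hu : u < 8) : X.sem (456 + u) ↔ X.f u := by
  unfold Sys.sem
  rw [if_neg (by omega), if_neg (by omega), if_neg (by omega), if_neg (by omega), if_neg (by omega),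
    if_neg (by omega), if_neg (by omega), if_neg (by omega), if_pos (by omega),
    show 456 + u - 456 = u by omega]

theorem sem_L {i u : ℕ} (hi : i < 6) (hu : u < 8) : X.sem (464 + 8 * i + u) ↔ X.L i u := by
  unfold Sys.sem
  rw [if_neg (by omega), if_neg (by omega), if_neg (by omega), if_neg (by omega), if_neg (by omega),
    if_neg (by omega), if_neg (by omega), if_neg (by omega), if_neg (by omega), if_pos (by omega),
    show (464 + 8 * i + u - 464) / 8 = i by omega, show (464 + 8 * i + u) % 8 = u by omega]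

theorem sem_Ts {u j : ℕ} (hu : u < 8) (hj : j < 16) : X.sem (512 + 16 * u + j) ↔ j ≤ X.Ts u := by
  unfold Sys.sem
  rw [if_neg (by omega), if_neg (by omega), if_neg (by omega), if_neg (by omega), if_neg (by omega),
    if_neg (by omega), if_neg (by omega), if_neg (by omega), if_neg (by omega), if_neg (by omega),
    if_pos (by omega),
    show (512 + 16 * u + j - 512) / 16 = u by omega, show (512 + 16 * u + j) % 16 = j by omega]

theorem sem_nd {u j : ℕ} (hu : u < 8) (hj : j < 16) : X.sem (640 + 16 * u + j) ↔ j ≤ X.nd u := by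
  unfold Sys.sem
  rw [if_neg (by omega), if_neg (by omega), if_neg (by omega), if_neg (by omega), if_neg (by omega),
    if_neg (by omega), if_neg (by omega), if_neg (by omega), if_neg (by omega), if_neg (by omega),
    if_neg (by omega), if_pos (by omega),
    show (640 + 16 * u + j - 640) / 16 = u by omega, show (640 + 16 * u + j) % 16 = j by omega]

theorem sem_b {y v : ℕ} (hy : y < 8) (hv : v < 8) : X.sem (768 + 8 * y + v) ↔ X.b y v := by
  unfold Sys.sem
  rw [if_neg (by omega), if_neg (by omega), if_neg (by omega), if_neg (by omega), if_neg (by omega),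
    if_neg (by omega), if_neg (by omega), if_neg (by omega), if_neg (by omega), if_neg (by omega),
    if_neg (by omega), if_neg (by omega), if_pos (by omega),
    show (768 + 8 * y + v - 768) / 8 = y by omega, show (768 + 8 * y + v) % 8 = v by omega]

theorem sem_B {y j : ℕ} (hy : y < 8) (hj : j < 8) : X.sem (832 + 8 * y + j) ↔ j ≤ X.B y := by
  unfold Sys.sem
  rw [if_neg (by omega), if_neg (by omega), if_neg (by omega), if_neg (by omega), if_neg (by omega),
    if_neg (by omega), if_neg (by omega), if_neg (by omega), if_neg (by omega), if_neg (by omega),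
    if_neg (by omega), if_neg (by omega), if_neg (by omega), if_pos (by omega),
    show (832 + 8 * y + j - 832) / 8 = y by omega, show (832 + 8 * y + j) % 8 = j by omega]

theorem sem_q {y v : ℕ} (hy : y < 8) (hv : v < 8) : X.sem (896 + 8 * y + v) ↔ X.q y v := by
  unfold Sys.sem
  rw [if_neg (by omega), if_neg (by omega), if_neg (by omega), if_neg (by omega), if_neg (by omega),
    if_neg (by omega), if_neg (by omega), if_neg (by omega), if_neg (by omega), if_neg (by omega),
    if_neg (by omega), if_neg (by omega), if_neg (by omega), if_neg (by omega), if_pos (by omega),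
    show (896 + 8 * y + v - 896) / 8 = y by omega, show (896 + 8 * y + v) % 8 = v by omega]

theorem sem_bs {v y j : ℕ} (hv : v < 8) (hy : y < 8) (hj : j < 16) :
    X.sem (1024 + 16 * (8 * v + y) + j) ↔ j ≤ X.bs v y := by
  unfold Sys.sem
  rw [if_neg (by omega), if_neg (by omega), if_neg (by omega), if_neg (by omega), if_neg (by omega),
    if_neg (by omega), if_neg (by omega), if_neg (by omega), if_neg (by omega), if_neg (by omega),
    if_neg (by omega), if_neg (by omega), if_neg (by omega), if_neg (by omega), if_neg (by omega),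
    show (1024 + 16 * (8 * v + y) + j - 1024) / 128 = v by omega,
    show (1024 + 16 * (8 * v + y) + j - 1024) / 16 % 8 = y by omega,
    show (1024 + 16 * (8 * v + y) + j) % 16 = j by omega]

/-! unary numbers -/

theorem holds_pos {σ : ℕ → Prop} {base bnd u j val : ℕ} (hb : bnd ≤ 7) (hbase : base ≤ 1000) (hu : u < 8)
    (hs : ∀ j < 8, (σ (base + 8 * u + j) ↔ j ≤ val)) (hval : val ≤ bnd) (h : j ≤ val) :
    holds σ (pos base bnd u j) := by
  unfold pos
  have h1 : Nat.ble j bnd = true := Nat.ble_eq_true_of_le (h.trans hval)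
  rw [h1, cond_true]
  exact holds_lp (by omega) ((hs j (by omega)).2 h)

theorem holds_neg {σ : ℕ → Prop} {base u j val : ℕ} (hbase : base ≤ 1000) (hu : u < 8)
    (hs : ∀ j < 8, (σ (base + 8 * u + j) ↔ j ≤ val)) (h : ¬ j ≤ val) :
    holds σ (neg base u j) := by
  unfold neg
  have h1 : Nat.ble 1 j = true := Nat.ble_eq_true_of_le (by omega)
  rw [h1, cond_true]
  cases h2 : Nat.ble j 7
  · rw [cond_false]
    exact holds_taut' σ
  · rw [cond_true]
    have h3 : j ≤ 7 := Nat.le_of_ble_eq_true h2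
    exact holds_ln (by omega) (fun h4 => h ((hs j (by omega)).1 h4))

theorem holds_pos16 {σ : ℕ → Prop} {base bnd u j val : ℕ} (hb : bnd ≤ 15) (hbase : base + 16 * u + 15 < 2048)
    (hs : ∀ j < 16, (σ (base + 16 * u + j) ↔ j ≤ val)) (hval : val ≤ bnd) (h : j ≤ val) :
    holds σ (pos16 base bnd u j) := by
  unfold pos16
  have h1 : Nat.ble j bnd = true := Nat.ble_eq_true_of_le (h.trans hval)
  rw [h1, cond_true]
  exact holds_lp (by omega) ((hs j (by omega)).2 h)

theorem holds_neg16 {σ : ℕ → Prop} {base u j val : ℕ} (hbase : base + 16 * u + 15 < 2048)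
    (hs : ∀ j < 16, (σ (base + 16 * u + j) ↔ j ≤ val)) (h : ¬ j ≤ val) :
    holds σ (neg16 base u j) := by
  unfold neg16
  have h1 : Nat.ble 1 j = true := Nat.ble_eq_true_of_le (by omega)
  rw [h1, cond_true]
  cases h2 : Nat.ble j 15
  · rw [cond_false]
    exact holds_taut' σ
  · rw [cond_true]
    have h3 : j ≤ 15 := Nat.le_of_ble_eq_true h2
    exact holds_ln (by omega) (fun h4 => h ((hs j (by omega)).1 h4))

/-! the literals -/

theorem h_pa {u v : ℕ} (hu : u < 8) (hv : v < 8) (h : X.a u v) : holds X.sem (pa u v) :=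
  holds_lp (by omega) ((sem_a X hu hv).2 h)
theorem h_na {u v : ℕ} (hu : u < 8) (hv : v < 8) (h : ¬ X.a u v) : holds X.sem (na u v) :=
  holds_ln (by omega) (fun h' => h ((sem_a X hu hv).1 h'))
theorem h_pn {u v : ℕ} (hu : u < 8) (hv : v < 8) (h : X.n u v) : holds X.sem (pn u v) :=
  holds_lp (by omega) ((sem_n X hu hv).2 h)
theorem h_nn {u v : ℕ} (hu : u < 8) (hv : v < 8) (h : ¬ X.n u v) : holds X.sem (nn u v) :=
  holds_ln (by omega) (fun h' => h ((sem_n X hu hv).1 h'))
theorem h_pb {u v : ℕ} (hu : u < 8) (hv : v < 8) (h : X.b u v) : holds X.sem (pb u v) :=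
  holds_lp (by omega) ((sem_b X hu hv).2 h)
theorem h_nb {u v : ℕ} (hu : u < 8) (hv : v < 8) (h : ¬ X.b u v) : holds X.sem (nb u v) :=
  holds_ln (by omega) (fun h' => h ((sem_b X hu hv).1 h'))
theorem h_pq {u v : ℕ} (hu : u < 8) (hv : v < 8) (h : X.q u v) : holds X.sem (pq u v) :=
  holds_lp (by omega) ((sem_q X hu hv).2 h)
theorem h_nq {u v : ℕ} (hu : u < 8) (hv : v < 8) (h : ¬ X.q u v) : holds X.sem (nq u v) :=
  holds_ln (by omega) (fun h' => h ((sem_q X hu hv).1 h'))
theorem h_pL {i u : ℕ} (hi : i < 6) (hu : u < 8) (h : X.L i u) : holds X.sem (pL i u) :=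
  holds_lp (by omega) ((sem_L X hi hu).2 h)
theorem h_nL {i u : ℕ} (hi : i < 6) (hu : u < 8) (h : ¬ X.L i u) : holds X.sem (nL i u) :=
  holds_ln (by omega) (fun h' => h ((sem_L X hi hu).1 h'))
theorem h_pe {u : ℕ} (hu : u < 8) (h : X.e u) : holds X.sem (pe u) :=
  holds_lp (by omega) ((sem_e X hu).2 h)
theorem h_ne {u : ℕ} (hu : u < 8) (h : ¬ X.e u) : holds X.sem (ne' u) :=
  holds_ln (by omega) (fun h' => h ((sem_e X hu).1 h'))
theorem h_pf {u : ℕ} (hu : u < 8) (h : X.f u) : holds X.sem (pf u) :=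
  holds_lp (by omega) ((sem_f X hu).2 h)
theorem h_nf {u : ℕ} (hu : u < 8) (h : ¬ X.f u) : holds X.sem (nf u) :=
  holds_ln (by omega) (fun h' => h ((sem_f X hu).1 h'))

theorem A_le {u : ℕ} (hu : u < 7) : X.A u ≤ 6 := by
  rw [X.hA u hu]
  have h : ((range 7).filter (fun v => X.a u v)) ⊆ (range 7).erase u := by
    intro v hv
    rw [mem_filter] at hv
    rw [mem_erase]
    refine ⟨?_, hv.1⟩
    rintro rfl
    exact X.h_or v hu v hu hv.2 hv.2
  have := card_le_card h
  rwa [card_erase_of_mem (mem_range.2 hu), card_range] at this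

theorem C_le {u : ℕ} (hu : u < 7) : X.C u ≤ 6 := by
  rw [X.hC u hu]
  have h : ((range 7).filter (fun v => X.n u v)) ⊆ (range 7).erase u := by
    intro v hv
    rw [mem_filter] at hv
    rw [mem_erase]
    exact ⟨fun h => (X.h_nx u hu v (mem_range.1 hv.1) hv.2).2 h.symm, hv.1⟩
  have := card_le_card h
  rwa [card_erase_of_mem (mem_range.2 hu), card_range] at this

theorem D_le {u : ℕ} (hu : u < 7) : X.D u ≤ mm := by have := X.h_deg u hu; omega
theorem t_le {u : ℕ} (hu : u < 7) : X.t u ≤ mm := by have := X.h_deg u hu; omega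
theorem z_le {u : ℕ} (hu : u < 7) : X.z u ≤ mm := by have := X.h_z1 u hu; omega
theorem B_le {y : ℕ} (hy : y < mm) : X.B y ≤ 7 := by
  rw [X.hB y hy]
  exact (card_filter_le _ _).trans_eq (card_range 7)

theorem Ts_le {u : ℕ} (hu : u < 7) : X.Ts u ≤ T := by
  refine le_trans ?_ X.hT.le
  exact sum_le_sum_of_subset (range_mono (by omega))

theorem nd_le {u : ℕ} (hu : u < 7) : X.nd u ≤ T := by
  have := X.h_need u hu ∅ (empty_subset _) (notMem_empty _) (by simp)
  unfold Sys.nd
  omega

theorem bs_le {v y : ℕ} (hv : v < 7) (hy : y < mm) : X.bs v y ≤ T := by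
  have h := X.h_needb v hv
  have h2 : X.bs v y ≤ ∑ y ∈ (range mm).filter (fun y => X.b y v), X.B y := by
    unfold Sys.bs
    refine sum_le_sum_of_subset (filter_subset_filter _ (range_mono (by omega)))
  omega

theorem h_pA {u j : ℕ} (hu : u < 7) (h : j ≤ X.A u) : holds X.sem (pA u j) :=
  holds_pos (by omega) (by omega) (by omega) (fun j hj => sem_A X (by omega) hj) (A_le X hu) h
theorem h_nA {u j : ℕ} (hu : u < 7) (h : ¬ j ≤ X.A u) : holds X.sem (nA u j) :=
  holds_neg (by omega) (by omega) (fun j hj => sem_A X (by omega) hj) h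
theorem h_pC {u j : ℕ} (hu : u < 7) (h : j ≤ X.C u) : holds X.sem (pC u j) :=
  holds_pos (by omega) (by omega) (by omega) (fun j hj => sem_C X (by omega) hj) (C_le X hu) h
theorem h_nC {u j : ℕ} (hu : u < 7) (h : ¬ j ≤ X.C u) : holds X.sem (nC u j) :=
  holds_neg (by omega) (by omega) (fun j hj => sem_C X (by omega) hj) h
theorem h_pD {u j : ℕ} (hm : mm ≤ 7) (hu : u < 7) (h : j ≤ X.D u) : holds X.sem (pD mm u j) :=
  holds_pos hm (by omega) (by omega) (fun j hj => sem_D X (by omega) hj) (D_le X hu) h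
theorem h_nD {u j : ℕ} (hu : u < 7) (h : ¬ j ≤ X.D u) : holds X.sem (nD u j) :=
  holds_neg (by omega) (by omega) (fun j hj => sem_D X (by omega) hj) h
theorem h_pt {u j : ℕ} (hm : mm ≤ 7) (hu : u < 7) (h : j ≤ X.t u) : holds X.sem (pt mm u j) :=
  holds_pos hm (by omega) (by omega) (fun j hj => sem_t X (by omega) hj) (t_le X hu) h
theorem h_nt {u j : ℕ} (hu : u < 7) (h : ¬ j ≤ X.t u) : holds X.sem (nt u j) :=
  holds_neg (by omega) (by omega) (fun j hj => sem_t X (by omega) hj) h
theorem h_pz {u j : ℕ} (hm : mm ≤ 7) (hu : u < 7) (h : j ≤ X.z u) : holds X.sem (pz mm u j) :=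
  holds_pos hm (by omega) (by omega) (fun j hj => sem_z X (by omega) hj) (z_le X hu) h
theorem h_nz {u j : ℕ} (hu : u < 7) (h : ¬ j ≤ X.z u) : holds X.sem (nz u j) :=
  holds_neg (by omega) (by omega) (fun j hj => sem_z X (by omega) hj) h
theorem h_pB {y j : ℕ} (hm : mm ≤ 7) (hy : y < mm) (h : j ≤ X.B y) : holds X.sem (pB y j) :=
  holds_pos (by omega) (by omega) (by omega) (fun j hj => sem_B X (by omega) hj) (B_le X hy) h
theorem h_nB {y j : ℕ} (hm : mm ≤ 7) (hy : y < mm) (h : ¬ j ≤ X.B y) : holds X.sem (nB y j) :=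
  holds_neg (by omega) (by omega) (fun j hj => sem_B X (by omega) hj) h
theorem h_pTs {u j : ℕ} (hT : T ≤ 15) (hu : u < 7) (h : j ≤ X.Ts u) : holds X.sem (pTs T u j) :=
  holds_pos16 hT (by omega) (fun j hj => sem_Ts X (by omega) hj) (Ts_le X hu) h
theorem h_pTs' {u j : ℕ} (hT : T ≤ 15) (hu : u < 7) (h : j ≤ X.Ts u) : holds X.sem (pTs 15 u j) :=
  holds_pos16 le_rfl (by omega) (fun j hj => sem_Ts X (by omega) hj) ((Ts_le X hu).trans hT) h
theorem h_nTs {u j : ℕ} (hu : u < 7) (h : ¬ j ≤ X.Ts u) : holds X.sem (nTs u j) :=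
  holds_neg16 (by omega) (fun j hj => sem_Ts X (by omega) hj) h
theorem h_pnd {u j : ℕ} (hT : T ≤ 15) (hu : u < 7) (h : j ≤ X.nd u) : holds X.sem (pnd T u j) :=
  holds_pos16 hT (by omega) (fun j hj => sem_nd X (by omega) hj) (nd_le X hu) h
theorem h_nnd {u j : ℕ} (hu : u < 7) (h : ¬ j ≤ X.nd u) : holds X.sem (nnd u j) :=
  holds_neg16 (by omega) (fun j hj => sem_nd X (by omega) hj) h
theorem h_pbs {v y j : ℕ} (hm : mm ≤ 7) (hT : T ≤ 15) (hv : v < 7) (hy : y < mm) (h : j ≤ X.bs v y) :
    holds X.sem (pbs T v y j) :=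
  holds_pos16 hT (by omega) (fun j hj => sem_bs X (by omega) (by omega) hj) (bs_le X hv hy) h
theorem h_nbs {v y j : ℕ} (hm : mm ≤ 7) (hv : v < 7) (hy : y < mm) (h : ¬ j ≤ X.bs v y) :
    holds X.sem (nbs v y j) :=
  holds_neg16 (by omega) (fun j hj => sem_bs X (by omega) (by omega) hj) h

/-! subsets of `0..6` -/

theorem holds_sub7 {σ : ℕ → Prop} {s : ℕ} {f : ℕ → ℕ} (h : ∃ v < 7, Nat.testBit s v = true ∧ holds σ (f v)) :
    holds σ (sub7 s f) := by
  obtain ⟨v, hv, h1, h2⟩ := h
  unfold sub7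
  have h0 : v = 0 ∨ v = 1 ∨ v = 2 ∨ v = 3 ∨ v = 4 ∨ v = 5 ∨ v = 6 := by omega
  rcases h0 with rfl | rfl | rfl | rfl | rfl | rfl | rfl
  · rw [h1, cond_true]; exact holds_left (holds_left (holds_left (holds_left (holds_left (holds_left h2)))))
  · rw [h1, cond_true]; exact holds_left (holds_left (holds_left (holds_left (holds_left (holds_right h2)))))
  · rw [h1, cond_true]; exact holds_left (holds_left (holds_left (holds_left (holds_right h2))))
  · rw [h1, cond_true]; exact holds_left (holds_left (holds_left (holds_right h2)))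
  · rw [h1, cond_true]; exact holds_left (holds_left (holds_right h2))
  · rw [h1, cond_true]; exact holds_left (holds_right h2)
  · rw [h1, cond_true]; exact holds_right h2

theorem cnt7_eq : ∀ s < 128, cnt7 s = ((range 7).filter (fun v => Nat.testBit s v = true)).card := by
  decide +kernel

end Pool.Agent.H39.S7
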